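import Mathlib

/-!
# The choice of the scales
-/

set_option autoImplicit false

namespace Pool.Agent.Helper712_LP

open Set Filter Topology

theorem pow_exp_tendsto (k : ℕ) (C c : ℝ) (hc : 0 < c) :
    Tendsto (fun D : ℕ => C * (D : ℝ) ^ k * Real.exp (-(c * D))) atTop (𝓝 0) := by
  have h1 := Real.tendsto_pow_mul_exp_neg_atTop_nhds_zero k
  have h2 : Tendsto (fun D : ℕ => c * (D : ℝ)) atTop atTop :=
    Tendsto.const_mul_atTop hc tendsto_natCast_atTop_atTop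
  have h3 := (h1.comp h2).const_mul (C / c ^ k)
  rw [mul_zero] at h3
  refine h3.congr fun D => ?_
  simp only [Function.comp]
  rw [mul_pow]
  have : c ^ k ≠ 0 := by positivity
  field_simp

theorem scales (d : ℕ) (hd : 1 ≤ d) (c6 ε δ k0 C0 Cb c5 C c : ℝ) (A kr : ℕ) (hc6 : 0 < c6)
    (hε : 0 < ε) (hδ : 0 < δ) (hk0 : 0 < k0) (hC0 : 0 ≤ C0) (hc5 : 0 < c5)
    (hC : 0 < C) (hc : 0 < c) (hc1 : c ≤ 1) :
    ∃ e : ℕ → ℝ, Tendsto e atTop (𝓝 0) ∧ ∀ᶠ D : ℕ in atTop, ∃ m R J ℓ : ℕ, 1 ≤ ℓ ∧ kr + D ≤ ℓ ∧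
      c6 * (ε * ℓ) ^ 2 ≤ m * δ ∧ m * δ ≤ 2 * c6 * (ε * ℓ) ^ 2 ∧
      ((2 * (m * R) + 1) ^ d : ℕ) * (Cb * (C0 * Real.exp (-k0 * D))) ≤ 1 / 2 ∧
      ((J * (m + 1)) * (2 * (J * (m + 1) * R) + 1) ^ d : ℕ) * (C0 * Real.exp (-k0 * R)) +
      (J * (2 * (J * (m + 1) * R + m * R + A) + 1) ^ d : ℕ) * Real.exp (-(c5 * (ε * ℓ) ^ d)) +
      (1 - (c * Real.exp (-C * ((D + kr : ℕ) : ℝ) ^ 2)) ^ ((2 * (D + kr) + 1) ^ d) / 2) ^ J ≤
        e D := by
  set Cm : ℕ := ⌈2 * c6 * ε ^ 2 / δ⌉₊ + 1 with hCm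
  set C1 : ℕ := ⌈((d : ℝ) + 2) / k0⌉₊ + 1 with hC1
  have hC1' : ((d : ℝ) + 2) ≤ k0 * C1 := by
    have h1 := Nat.le_ceil (((d : ℝ) + 2) / k0)
    rw [div_le_iff₀ hk0] at h1
    rw [hC1]
    push_cast
    rw [mul_add, mul_one, mul_comm k0]
    linarith
  have hCm' : 2 * c6 * ε ^ 2 / δ + 1 ≤ Cm := by
    have h1 := Nat.le_ceil (2 * c6 * ε ^ 2 / δ)
    rw [hCm]
    push_cast
    linarith
  set c3 : ℝ := -Real.log c + C with hc3
  have hlogc : Real.log c ≤ 0 := Real.log_nonpos hc.le hc1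
  have hc30 : 0 ≤ c3 := by rw [hc3]; linarith
  set C3 : ℝ := c3 * 3 ^ d * (1 + kr) ^ (d + 2) with hC3
  have hC30 : 0 ≤ C3 := by positivity
  set Kc : ℝ := (3 ^ d * C0 + (2 * A + 5) ^ d) * ((Cm : ℝ) * C1) ^ (d + 1) with hKc
  refine ⟨fun D => Kc * ((D ^ (d + 3) : ℕ) : ℝ) ^ (5 * (d + 1)) *
    Real.exp (-(1 * ((D ^ (d + 3) : ℕ) : ℝ))) + 1 * (D : ℝ) ^ 0 * Real.exp (-(1 / 2 * D)), ?_, ?_⟩
  · have h1 : Tendsto (fun D : ℕ => D ^ (d + 3)) atTop atTop :=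
      tendsto_pow_atTop (by omega)
    have h2 := (pow_exp_tendsto (5 * (d + 1)) Kc 1 one_pos).comp h1
    have h3 := pow_exp_tendsto 0 1 (1 / 2) (by norm_num)
    have h4 := h2.add h3
    rw [add_zero] at h4
    exact h4
  -- eventual conditions
  have ev1 : ∀ᶠ D : ℕ in atTop, ((3 * ((Cm : ℝ) * C1)) ^ d * (|Cb| * C0)) *
      (D : ℝ) ^ (5 * (d * (d + 3))) * Real.exp (-(k0 * D)) < 1 / 2 :=
    (pow_exp_tendsto _ _ k0 hk0).eventually (gt_mem_nhds (by norm_num))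
  have ev2 : ∀ᶠ D : ℕ in atTop, ((d : ℝ) + 2) / (c5 * ε ^ d) ≤ D :=
    tendsto_natCast_atTop_atTop.eventually_ge_atTop _
  have ev3 : ∀ᶠ D : ℕ in atTop, δ / (c6 * ε ^ 2) ≤ D :=
    tendsto_natCast_atTop_atTop.eventually_ge_atTop _
  have ev4 : ∀ᶠ D : ℕ in atTop, 2 * (C3 + 1) ≤ (D : ℝ) :=
    tendsto_natCast_atTop_atTop.eventually_ge_atTop _
  filter_upwards [ev1, ev2, ev3, ev4, eventually_ge_atTop (kr + 2)] with D e1 e2 e3 e4 e5
  have hD1 : 1 ≤ D := by omega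
  have hD1r : (1 : ℝ) ≤ D := by exact_mod_cast hD1
  clear_value Cm C1 c3 C3 Kc
  set Λ : ℕ := D ^ (d + 3) with hΛ
  clear_value Λ
  have hDΛ : D ≤ Λ := by
    calc D = D ^ 1 := (pow_one D).symm
      _ ≤ D ^ (d + 3) := Nat.pow_le_pow_right hD1 (by omega)
      _ = Λ := hΛ.symm
  have hΛ1 : 1 ≤ Λ := hD1.trans hDΛ
  have hΛ1r : (1 : ℝ) ≤ Λ := by exact_mod_cast hΛ1
  have hDΛr : (D : ℝ) ≤ Λ := by exact_mod_cast hDΛ
  obtain ⟨ℓ, hℓ⟩ : ∃ ℓ : ℕ, ℓ = Λ ^ 2 := ⟨_, rfl⟩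
  have hℓr : (ℓ : ℝ) = (Λ : ℝ) ^ 2 := by rw [hℓ]; push_cast; ring
  obtain ⟨x, hx⟩ : ∃ x : ℝ, x = c6 * (ε * ℓ) ^ 2 / δ := ⟨_, rfl⟩
  have hx0 : 0 ≤ x := by rw [hx]; positivity
  have hxΛ : x = c6 * ε ^ 2 / δ * (Λ : ℝ) ^ 4 := by
    rw [hx, hℓr]; ring
  have hx1 : 1 ≤ x := by
    rw [hxΛ]
    have h1 : δ / (c6 * ε ^ 2) ≤ (Λ : ℝ) ^ 4 := by
      refine (e3.trans hDΛr).trans ?_
      calc (Λ : ℝ) = (Λ : ℝ) ^ 1 := (pow_one _).symm
        _ ≤ (Λ : ℝ) ^ 4 := pow_le_pow_right₀ hΛ1r (by norm_num)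
    rw [div_le_iff₀ (by positivity)] at h1
    rw [div_mul_eq_mul_div, one_le_div hδ]
    linarith
  obtain ⟨m, hm⟩ : ∃ m : ℕ, m = ⌈x⌉₊ := ⟨_, rfl⟩
  have hm1 : x ≤ m := hm ▸ Nat.le_ceil x
  have hm2 : (m : ℝ) < x + 1 := hm ▸ Nat.ceil_lt_add_one hx0
  obtain ⟨R, hR⟩ : ∃ R : ℕ, R = C1 * Λ := ⟨_, rfl⟩
  have hC11 : 1 ≤ C1 := by omega
  have hCm1 : 1 ≤ Cm := by omega
  have hR1 : 1 ≤ R := hR ▸ Nat.mul_pos hC11 hΛ1
  have hRr : (R : ℝ) = C1 * Λ := by rw [hR]; push_cast; ring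
  obtain ⟨J, hJ⟩ : ∃ J : ℕ, J = 2 ^ Λ := ⟨_, rfl⟩
  have hJ1 : 1 ≤ J := hJ ▸ Nat.one_le_two_pow
  have hJ1r : (1 : ℝ) ≤ J := by exact_mod_cast hJ1
  have hmr : (m : ℝ) + 1 ≤ Cm * (Λ : ℝ) ^ 4 := by
    have h4 : (1 : ℝ) ≤ (Λ : ℝ) ^ 4 := one_le_pow₀ hΛ1r
    have h5 : (m : ℝ) + 1 ≤ 2 * x + 1 := by
      linarith [hm2, show x + 1 ≤ 2 * x by linarith]
    calc (m : ℝ) + 1 ≤ 2 * x + 1 := h5
      _ ≤ (2 * c6 * ε ^ 2 / δ) * (Λ : ℝ) ^ 4 + (Λ : ℝ) ^ 4 := by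
          rw [hxΛ]
          have : 2 * (c6 * ε ^ 2 / δ * (Λ : ℝ) ^ 4) = 2 * c6 * ε ^ 2 / δ * (Λ : ℝ) ^ 4 := by ring
          linarith
      _ = (2 * c6 * ε ^ 2 / δ + 1) * (Λ : ℝ) ^ 4 := by ring
      _ ≤ Cm * (Λ : ℝ) ^ 4 := by gcongr
  obtain ⟨Q, hQ⟩ : ∃ Q : ℝ, Q = (Cm : ℝ) * C1 * (Λ : ℝ) ^ 5 := ⟨_, rfl⟩
  have hC11r : (1 : ℝ) ≤ C1 := by exact_mod_cast hC11
  have hCm1r : (1 : ℝ) ≤ Cm := by exact_mod_cast hCm1
  have hQ1 : 1 ≤ Q := by
    have h1 : (1 : ℝ) ≤ (Λ : ℝ) ^ 5 := one_le_pow₀ hΛ1r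
    have h2 : (1 : ℝ) ≤ (Cm : ℝ) * C1 := one_le_mul_of_one_le_of_one_le hCm1r hC11r
    rw [hQ]
    exact one_le_mul_of_one_le_of_one_le h2 h1
  have hmRQ : ((m : ℝ) + 1) * R ≤ Q := by
    rw [hRr, hQ]
    calc ((m : ℝ) + 1) * (C1 * Λ) ≤ (Cm * (Λ : ℝ) ^ 4) * (C1 * Λ) := by gcongr
      _ = (Cm : ℝ) * C1 * (Λ : ℝ) ^ 5 := by ring
  have hR1r : (1 : ℝ) ≤ R := by exact_mod_cast hR1
  have hm0 : (0 : ℝ) ≤ m := Nat.cast_nonneg m
  have hmR : (m : ℝ) * R ≤ Q := by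
    have h := hmRQ
    rw [add_mul, one_mul] at h
    linarith
  have hm1Q : (m : ℝ) + 1 ≤ Q :=
    (le_mul_of_one_le_right (by linarith) hR1r).trans hmRQ
  have hJexp : (J : ℝ) ^ (d + 1) ≤ Real.exp ((d + 1) * Λ) := by
    have h1 : (2 : ℝ) ≤ Real.exp 1 := by
      have := Real.add_one_le_exp (1 : ℝ); linarith
    have h2 : (J : ℝ) = 2 ^ Λ := by rw [hJ]; push_cast; ring
    rw [h2, ← pow_mul]
    calc (2 : ℝ) ^ (Λ * (d + 1)) ≤ (Real.exp 1) ^ (Λ * (d + 1)) := by gcongr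
      _ = Real.exp ((d + 1) * Λ) := by
          rw [← Real.exp_nat_mul]
          congr 1
          push_cast
          ring
  refine ⟨m, R, J, ℓ, ?_, ?_, ?_, ?_, ?_, ?_⟩
  · rw [hℓ]
    exact Nat.one_le_pow _ _ hΛ1
  · calc kr + D ≤ 2 * D := by omega
      _ ≤ D * D := Nat.mul_le_mul_right D (by omega)
      _ ≤ Λ * Λ := Nat.mul_le_mul hDΛ hDΛ
      _ = ℓ := by rw [hℓ, sq]
  · have := mul_le_mul_of_nonneg_right hm1 hδ.le
    rwa [hx, div_mul_cancel₀ _ hδ.ne'] at this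
  · have h1 : (m : ℝ) ≤ 2 * x := by linarith
    have := mul_le_mul_of_nonneg_right h1 hδ.le
    have h2 : 2 * x * δ = 2 * c6 * (ε * ℓ) ^ 2 := by
      rw [hx]; field_simp
    rwa [h2] at this
  · have h1 : (((2 * (m * R) + 1) ^ d : ℕ) : ℝ) ≤ (3 * Q) ^ d := by
      push_cast
      refine pow_le_pow_left₀ (by positivity) ?_ d
      linarith
    have h2 : Cb * (C0 * Real.exp (-k0 * D)) ≤ |Cb| * (C0 * Real.exp (-k0 * D)) := by
      gcongr
      exact le_abs_self Cb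
    calc (((2 * (m * R) + 1) ^ d : ℕ) : ℝ) * (Cb * (C0 * Real.exp (-k0 * D)))
        ≤ (((2 * (m * R) + 1) ^ d : ℕ) : ℝ) * (|Cb| * (C0 * Real.exp (-k0 * D))) := by gcongr
      _ ≤ (3 * Q) ^ d * (|Cb| * (C0 * Real.exp (-k0 * D))) := by gcongr
      _ = ((3 * ((Cm : ℝ) * C1)) ^ d * (|Cb| * C0)) *
          (D : ℝ) ^ (5 * (d * (d + 3))) * Real.exp (-(k0 * D)) := by
          have hΛr : (Λ : ℝ) = (D : ℝ) ^ (d + 3) := by rw [hΛ]; push_cast; ring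
          rw [hQ, hΛr]
          have e1 : (3 * ((Cm : ℝ) * C1 * ((D : ℝ) ^ (d + 3)) ^ 5)) ^ d =
              (3 * ((Cm : ℝ) * C1)) ^ d * (D : ℝ) ^ (5 * (d * (d + 3))) := by
            rw [← pow_mul, ← mul_assoc, mul_pow, ← pow_mul]
            congr 2
            ring
          rw [e1, neg_mul]
          ring
      _ ≤ 1 / 2 := e1.le
  · -- the three terms
    have hJ0 : (0 : ℝ) ≤ J := by positivity
    have hNR : ((J * (m + 1) * R : ℕ) : ℝ) ≤ J * Q := by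
      push_cast
      rw [mul_assoc]
      exact mul_le_mul_of_nonneg_left hmRQ hJ0
    have hJQ1 : 1 ≤ (J : ℝ) * Q := one_le_mul_of_one_le_of_one_le hJ1r hQ1
    have hexpΛ : Real.exp ((d + 1) * Λ) * Real.exp (-((d + 2) * (Λ : ℝ))) =
        Real.exp (-(1 * (Λ : ℝ))) := by
      rw [← Real.exp_add]; congr 1; ring
    have T1 : (((J * (m + 1)) * (2 * (J * (m + 1) * R) + 1) ^ d : ℕ) : ℝ) *
        (C0 * Real.exp (-k0 * R)) ≤ 3 ^ d * C0 * Q ^ (d + 1) * Real.exp (-(1 * (Λ : ℝ))) := by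
      have h1 : (((J * (m + 1)) * (2 * (J * (m + 1) * R) + 1) ^ d : ℕ) : ℝ) ≤
          (J * Q) * (3 * (J * Q)) ^ d := by
        rw [Nat.cast_mul, Nat.cast_pow]
        refine mul_le_mul ?_ (pow_le_pow_left₀ (Nat.cast_nonneg _) ?_ d) (by positivity)
          (by positivity)
        · push_cast
          exact mul_le_mul_of_nonneg_left hm1Q hJ0
        · rw [Nat.cast_add, Nat.cast_mul, Nat.cast_one, Nat.cast_two]
          linarith
      have h2 : Real.exp (-k0 * R) ≤ Real.exp (-((d + 2) * (Λ : ℝ))) := by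
        apply Real.exp_le_exp.mpr
        rw [hRr]
        have := mul_le_mul_of_nonneg_right hC1' (Nat.cast_nonneg (α := ℝ) Λ)
        have h9 : -k0 * ((C1 : ℝ) * Λ) = -(k0 * C1 * Λ) := by ring
        rw [h9]
        exact neg_le_neg this
      calc _ ≤ ((J * Q) * (3 * (J * Q)) ^ d) * (C0 * Real.exp (-((d + 2) * (Λ : ℝ)))) := by
            gcongr
        _ = (3 ^ d * C0 * Q ^ (d + 1)) * ((J : ℝ) ^ (d + 1) * Real.exp (-((d + 2) * (Λ : ℝ)))) := by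
            rw [mul_pow (3 : ℝ), mul_pow (J : ℝ), pow_succ (J : ℝ), pow_succ Q]; ring
        _ ≤ (3 ^ d * C0 * Q ^ (d + 1)) *
            (Real.exp ((d + 1) * Λ) * Real.exp (-((d + 2) * (Λ : ℝ)))) := by gcongr
        _ = _ := by rw [hexpΛ]
    have T2 : ((J * (2 * (J * (m + 1) * R + m * R + A) + 1) ^ d : ℕ) : ℝ) *
        Real.exp (-(c5 * (ε * ℓ) ^ d)) ≤
          (2 * A + 5) ^ d * Q ^ (d + 1) * Real.exp (-(1 * (Λ : ℝ))) := by
      have h1 : ((J * (2 * (J * (m + 1) * R + m * R + A) + 1) ^ d : ℕ) : ℝ) ≤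
          J * ((2 * A + 5) * (J * Q)) ^ d := by
        rw [Nat.cast_mul (α := ℝ) J, Nat.cast_pow]
        refine mul_le_mul_of_nonneg_left (pow_le_pow_left₀ (Nat.cast_nonneg _) ?_ d) hJ0
        rw [Nat.cast_add, Nat.cast_mul, Nat.cast_one, Nat.cast_two, Nat.cast_add, Nat.cast_add]
        have h3 : ((m * R : ℕ) : ℝ) ≤ J * Q := by
          push_cast
          calc (m : ℝ) * R ≤ Q := hmR
            _ ≤ J * Q := le_mul_of_one_le_left (by positivity) hJ1r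
        have h4 : (A : ℝ) ≤ A * (J * Q) := le_mul_of_one_le_right (Nat.cast_nonneg A) hJQ1
        have h9 : (2 * (A : ℝ) + 5) * (J * Q) = 2 * (A * (J * Q)) + 5 * (J * Q) := by ring
        rw [h9]
        linarith
      have h2 : Real.exp (-(c5 * (ε * ℓ) ^ d)) ≤ Real.exp (-((d + 2) * (Λ : ℝ))) := by
        apply Real.exp_le_exp.mpr
        have h3 : ((d : ℝ) + 2) ≤ c5 * ε ^ d * Λ := by
          have := e2.trans hDΛr
          rw [div_le_iff₀ (by positivity)] at this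
          linarith
        have h4 : (Λ : ℝ) ^ 2 ≤ (ℓ : ℝ) ^ d := by
          rw [hℓr, ← pow_mul]
          exact pow_le_pow_right₀ hΛ1r (by omega)
        have h5 : ((d : ℝ) + 2) * Λ ≤ c5 * (ε * ℓ) ^ d := by
          calc ((d : ℝ) + 2) * Λ ≤ (c5 * ε ^ d * Λ) * Λ := by gcongr
            _ = c5 * ε ^ d * (Λ : ℝ) ^ 2 := by ring
            _ ≤ c5 * ε ^ d * (ℓ : ℝ) ^ d := by gcongr
            _ = c5 * (ε * ℓ) ^ d := by rw [mul_pow]; ring
        linarith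
      have h6 : (J : ℝ) * Q ^ d ≤ J * Q ^ (d + 1) := by
        refine mul_le_mul_of_nonneg_left (pow_le_pow_right₀ hQ1 (by omega)) hJ0
      calc _ ≤ (J * ((2 * A + 5) * (J * Q)) ^ d) * Real.exp (-((d + 2) * (Λ : ℝ))) := by
            gcongr
        _ = (2 * A + 5) ^ d * Q ^ d * ((J : ℝ) ^ (d + 1) * Real.exp (-((d + 2) * (Λ : ℝ)))) := by
            rw [mul_pow (2 * (A : ℝ) + 5), mul_pow (J : ℝ), pow_succ (J : ℝ)]; ring
        _ ≤ (2 * A + 5) ^ d * Q ^ (d + 1) *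
            (Real.exp ((d + 1) * Λ) * Real.exp (-((d + 2) * (Λ : ℝ)))) := by
            have h7 : Q ^ d ≤ Q ^ (d + 1) := pow_le_pow_right₀ hQ1 (by omega)
            gcongr
        _ = _ := by rw [hexpΛ]
    have T3 : (1 - (c * Real.exp (-C * ((D + kr : ℕ) : ℝ) ^ 2)) ^ ((2 * (D + kr) + 1) ^ d) / 2) ^ J
        ≤ Real.exp (-(1 / 2 * D)) := by
      obtain ⟨n, hn⟩ : ∃ n : ℕ, n = D + kr := ⟨_, rfl⟩
      rw [← hn]
      obtain ⟨y, hy⟩ : ∃ y : ℝ, y = (c * Real.exp (-C * ((n : ℕ) : ℝ) ^ 2)) ^ ((2 * n + 1) ^ d) :=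
        ⟨_, rfl⟩
      rw [← hy]
      have hn1 : 1 ≤ n := by omega
      have hn1r : (1 : ℝ) ≤ n := by exact_mod_cast hn1
      have hbase : Real.exp (-(c3 * (n : ℝ) ^ 2)) ≤ c * Real.exp (-C * (n : ℝ) ^ 2) := by
        conv_rhs => rw [← Real.exp_log hc]
        rw [← Real.exp_add]
        apply Real.exp_le_exp.mpr
        rw [hc3]
        have h8 : (1 : ℝ) ≤ (n : ℝ) ^ 2 := one_le_pow₀ hn1r
        have h9 := mul_nonneg (neg_nonneg.mpr hlogc) (sub_nonneg.mpr h8)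
        have h10 : -((-Real.log c + C) * (n : ℝ) ^ 2) =
            Real.log c + -C * (n : ℝ) ^ 2 - -Real.log c * ((n : ℝ) ^ 2 - 1) := by ring
        rw [h10]
        linarith
      have hnD : (n : ℝ) ≤ (1 + kr) * D := by
        rw [hn]; push_cast
        have h9 : (kr : ℝ) ≤ kr * D := le_mul_of_one_le_right (Nat.cast_nonneg kr) hD1r
        rw [add_mul, one_mul]
        linarith
      have h2n : (2 * (n : ℝ) + 1) ≤ 3 * ((1 + kr) * D) := by linarith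
      have hylow : Real.exp (-(C3 * (D : ℝ) ^ (d + 2))) ≤ y := by
        calc Real.exp (-(C3 * (D : ℝ) ^ (d + 2)))
            ≤ Real.exp (((2 * n + 1) ^ d : ℕ) * (-(c3 * (n : ℝ) ^ 2))) := by
              apply Real.exp_le_exp.mpr
              have h1 : (((2 * n + 1) ^ d : ℕ) : ℝ) * (n : ℝ) ^ 2 ≤
                  (3 * ((1 + kr) * D)) ^ d * ((1 + kr) * D) ^ 2 := by
                push_cast
                gcongr
              have h2 : C3 * (D : ℝ) ^ (d + 2) =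
                  c3 * ((3 * ((1 + kr) * D)) ^ d * ((1 + kr) * D) ^ 2) := by
                rw [hC3, mul_pow (3 : ℝ), mul_pow (1 + (kr : ℝ)) (D : ℝ) d,
                  mul_pow (1 + (kr : ℝ)) (D : ℝ) 2, pow_add (1 + (kr : ℝ)), pow_add (D : ℝ)]
                ring
              have h3 := mul_le_mul_of_nonneg_left h1 hc30
              rw [h2]
              linarith
          _ = (Real.exp (-(c3 * (n : ℝ) ^ 2))) ^ ((2 * n + 1) ^ d) := by
              rw [← Real.exp_nat_mul]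
          _ ≤ y := by
              rw [hy]
              exact pow_le_pow_left₀ (Real.exp_pos _).le hbase _
      have hJlow : Real.exp (1 / 2 * (D : ℝ) ^ (d + 3)) ≤ J := by
        have h1 : Real.exp (1 / 2) ≤ 2 := by
          have h2 : Real.exp (1 / 2) ^ 2 = Real.exp 1 := by
            rw [← Real.exp_nat_mul]; norm_num
          have h3 := Real.exp_one_lt_three
          refine (lt_of_pow_lt_pow_left₀ 2 (by norm_num) ?_).le
          rw [h2]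
          linarith
        have h2 : (J : ℝ) = 2 ^ Λ := by rw [hJ]; push_cast; ring
        have hΛr : (Λ : ℝ) = (D : ℝ) ^ (d + 3) := by rw [hΛ]; push_cast; ring
        rw [h2, ← hΛr]
        calc Real.exp (1 / 2 * (Λ : ℝ)) = (Real.exp (1 / 2)) ^ Λ := by
              rw [← Real.exp_nat_mul]; congr 1; ring
          _ ≤ 2 ^ Λ := pow_le_pow_left₀ (Real.exp_pos _).le h1 _
      have hJy : (D : ℝ) ≤ J * y := by
        calc (D : ℝ) ≤ (D : ℝ) ^ (d + 2) := by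
              calc (D : ℝ) = (D : ℝ) ^ 1 := (pow_one _).symm
                _ ≤ (D : ℝ) ^ (d + 2) := pow_le_pow_right₀ hD1r (by omega)
          _ ≤ Real.exp ((D : ℝ) ^ (d + 2)) := by
              have := Real.add_one_le_exp ((D : ℝ) ^ (d + 2)); linarith
          _ ≤ Real.exp (1 / 2 * (D : ℝ) ^ (d + 3) + -(C3 * (D : ℝ) ^ (d + 2))) := by
              apply Real.exp_le_exp.mpr
              have h1 : (D : ℝ) ^ (d + 3) = (D : ℝ) ^ (d + 2) * D := by rw [← pow_succ]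
              have h2 : 0 ≤ (D : ℝ) ^ (d + 2) := by positivity
              have h9 := mul_le_mul_of_nonneg_left e4 h2
              rw [h1]
              have h10 : (D : ℝ) ^ (d + 2) * (2 * (C3 + 1)) =
                2 * (C3 * (D : ℝ) ^ (d + 2)) + 2 * (D : ℝ) ^ (d + 2) := by ring
              rw [h10] at h9
              linarith
          _ = Real.exp (1 / 2 * (D : ℝ) ^ (d + 3)) * Real.exp (-(C3 * (D : ℝ) ^ (d + 2))) :=
              Real.exp_add _ _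
          _ ≤ J * y := mul_le_mul hJlow hylow (Real.exp_pos _).le hJ0
      have hy1 : y ≤ 1 := by
        rw [hy]
        refine pow_le_one₀ (by positivity) ?_
        have : Real.exp (-C * (n : ℝ) ^ 2) ≤ 1 := by
          rw [Real.exp_le_one_iff]
          have : 0 ≤ C * (n : ℝ) ^ 2 := by positivity
          linarith
        calc c * Real.exp (-C * (n : ℝ) ^ 2) ≤ 1 * 1 :=
              mul_le_mul hc1 this (Real.exp_pos _).le zero_le_one
          _ = 1 := one_mul 1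
      calc (1 - y / 2) ^ J ≤ (Real.exp (-(y / 2))) ^ J := by
            refine pow_le_pow_left₀ (by linarith) ?_ J
            have := Real.add_one_le_exp (-(y / 2))
            linarith
        _ = Real.exp (J * (-(y / 2))) := by rw [← Real.exp_nat_mul]
        _ ≤ Real.exp (-(1 / 2 * D)) := by
            apply Real.exp_le_exp.mpr
            have h9 : (J : ℝ) * (-(y / 2)) = -(1 / 2 * (J * y)) := by ring
            rw [h9]
            linarith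
    have hQΛ : Q ^ (d + 1) = ((Cm : ℝ) * C1) ^ (d + 1) * (Λ : ℝ) ^ (5 * (d + 1)) := by
      rw [hQ, mul_pow, ← pow_mul]
    calc _ ≤ 3 ^ d * C0 * Q ^ (d + 1) * Real.exp (-(1 * (Λ : ℝ))) +
          (2 * A + 5) ^ d * Q ^ (d + 1) * Real.exp (-(1 * (Λ : ℝ))) +
          Real.exp (-(1 / 2 * D)) := add_le_add (add_le_add T1 T2) T3
      _ = _ := by
          rw [hQΛ, hKc]
          ring

end Pool.Agent.Helper712_LP
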