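import Pool.Agent.Helper712_LP.Step

/-!
# The probability of the contraction event
-/

set_option autoImplicit false

namespace Pool.Agent.Helper712_LP

open MeasureTheory ProbabilityTheory Set Filter Topology
open scoped ENNReal NNReal

variable {d : ℕ}

theorem isFirst_unique {ε : ℝ} {y : ℕ → E d} {z : Fin d → ℤ} {i i' : ℕ}
    (h : isFirst ε y z i) (h' : isFirst ε y z i') : i = i' := by
  rcases lt_trichotomy i i' with hlt | heq | hgt
  · exact absurd h.1 (h'.2 i hlt)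
  · exact heq
  · exact absurd h'.1 (h.2 i' hgt)

theorem MobileNodes.motions {Ω : Type} [MeasurableSpace Ω] {P : Measure Ω} {lam : ℝ≥0}
    {X : ℕ → Ω → E d} {Z : ℕ → ℝ≥0 → Ω → E d} (h : MobileNodes P lam X Z) : Motions P Z :=
  ⟨h.measurable, h.brownian, h.indep⟩

section

variable {Ω : Type} [mΩ : MeasurableSpace Ω] {P : Measure Ω} [IsProbabilityMeasure P]
  {lam : ℝ≥0} {X : ℕ → Ω → E d} {Z : ℕ → ℝ≥0 → Ω → E d}

theorem measurable_path (h : Motions P Z) (i : ℕ) :
    Measurable (fun ω (t : ℝ≥0) => Z i t ω) :=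
  measurable_pi_iff.mpr fun t => h.measurable i t

theorem prob_tube_incr (hshift : S_shift) (hpl : S_pathLaw) (hM : Motions P Z) (η : ℝ) (δ : ℝ≥0)
    (v : E d) (t : ℝ≥0) (i : ℕ) :
    P {ω | Tube η δ v (fun u => incr Z t i u ω)} = P {ω | Tube η δ v (fun u => Z 0 u ω)} := by
  have hM' := hshift d Ω P Z hM t
  have h1 := hpl d Ω Ω P P (incr Z t) Z hM' hM i 0
  have hm := measurableSet_tube η δ v
  have e1 : P {ω | Tube η δ v (fun u => incr Z t i u ω)} =
      (P.map (fun ω (u : ℝ≥0) => incr Z t i u ω)) {w | Tube η δ v w} := by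
    rw [Measure.map_apply (measurable_path hM' i) hm]
    rfl
  have e2 : P {ω | Tube η δ v (fun u => Z 0 u ω)} =
      (P.map (fun ω (u : ℝ≥0) => Z 0 u ω)) {w | Tube η δ v w} := by
    rw [Measure.map_apply (measurable_path hM 0) hm]
    rfl
  rw [e1, e2, h1]

theorem contract_prob (hshift : S_shift) (hpl : S_pathLaw) (hpi : S_pathIndep) (htube : S_tube)
    (hM : Motions P Z) {ε η : ℝ} {δ : ℝ≥0} (hε : 0 < ε) (hη : 0 < η) (hδ : 0 < δ)
    (hpos : 0 < P {ω | Tube (η / 4) δ 0 (fun u => Z 0 u ω)}) :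
    ∃ c C : ℝ, 0 < c ∧ c ≤ 1 ∧ 0 < C ∧ ∀ (t : ℝ≥0) (n : ℕ) (y : ℕ → E d) (z0 : Fin d → ℤ),
      ENNReal.ofReal ((c * Real.exp (-C * (n : ℝ) ^ 2)) ^ ((2 * n + 1) ^ d)) ≤
        P {ω | (y, fun i u => incr Z t i u ω) ∈ CH ε η δ n z0} := by
  obtain ⟨c, C, hc, hC, hcC⟩ := htube d Ω P Z hM η δ hη hδ hpos
  set C' : ℝ := C * (ε * Real.sqrt d) ^ 2 + 1 with hC'
  have hC'pos : 0 < C' := by positivity
  refine ⟨min c 1, C', lt_min hc one_pos, min_le_right _ _, hC'pos, fun t n y z0 => ?_⟩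
  set a : ℝ := min c 1 * Real.exp (-C' * (n : ℝ) ^ 2) with ha
  have ha0 : 0 ≤ a := by positivity
  have ha1 : a ≤ 1 := by
    have h1 : Real.exp (-C' * (n : ℝ) ^ 2) ≤ 1 := by
      rw [Real.exp_le_one_iff]
      have : 0 ≤ C' * (n : ℝ) ^ 2 := by positivity
      linarith
    calc a ≤ 1 * 1 := mul_le_mul (min_le_right _ _) h1 (Real.exp_pos _).le zero_le_one
      _ = 1 := one_mul 1
  obtain ⟨S, hScard, hS⟩ := ncard_box z0 n
  classical
  -- the indices
  set I : Finset ℕ := (S.filter (fun z => ∃ i, isFirst ε y z i)).image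
    (fun z => if h : ∃ i, isFirst ε y z i then h.choose else 0) with hI
  have hIcard : I.card ≤ (2 * n + 1) ^ d := by
    rw [← hScard]
    exact Finset.card_image_le.trans (Finset.card_filter_le _ _)
  have hImem : ∀ i ∈ I, cell ε (y i) ∈ boxS z0 n := by
    intro i hi
    rw [hI, Finset.mem_image] at hi
    obtain ⟨z, hz, hzi⟩ := hi
    rw [Finset.mem_filter] at hz
    rw [dif_pos hz.2] at hzi
    have := hz.2.choose_spec
    rw [hzi] at this
    rw [this.1]
    exact (hS z).mp hz.1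
  have hM' := hshift d Ω P Z hM t
  have hind := hpi d Ω P (incr Z t) hM'
  have hprod := hind.measure_inter_preimage_eq_mul I
    (sets := fun i => {w : ℝ≥0 → E d | Tube η δ (corner ε (cell ε (y i)) - corner ε z0) w})
    (fun i _ => measurableSet_tube η δ _)
  have hsub : (⋂ i ∈ I, (fun ω (u : ℝ≥0) => incr Z t i u ω) ⁻¹'
      {w : ℝ≥0 → E d | Tube η δ (corner ε (cell ε (y i)) - corner ε z0) w}) ⊆
      {ω | (y, fun i u => incr Z t i u ω) ∈ CH ε η δ n z0} := by
    intro ω hω z hz i hi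
    have hiI : i ∈ I := by
      rw [hI, Finset.mem_image]
      have hex : ∃ i, isFirst ε y z i := ⟨i, hi⟩
      refine ⟨z, Finset.mem_filter.mpr ⟨(hS z).mpr hz, hex⟩, ?_⟩
      rw [dif_pos hex]
      exact isFirst_unique hex.choose_spec hi
    have := mem_iInter₂.mp hω i hiI
    simp only [mem_preimage, mem_ofPred_eq] at this
    rw [hi.1] at this
    exact this
  refine le_trans ?_ (measure_mono hsub)
  rw [hprod]
  have hfac : ∀ i ∈ I, ENNReal.ofReal a ≤ P ((fun ω (u : ℝ≥0) => incr Z t i u ω) ⁻¹'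
      {w : ℝ≥0 → E d | Tube η δ (corner ε (cell ε (y i)) - corner ε z0) w}) := by
    intro i hi
    have h1 := prob_tube_incr hshift hpl hM η δ (corner ε (cell ε (y i)) - corner ε z0) t i
    have h2 := hcC (corner ε (cell ε (y i)) - corner ε z0)
    have h3 : (fun ω (u : ℝ≥0) => incr Z t i u ω) ⁻¹'
      {w : ℝ≥0 → E d | Tube η δ (corner ε (cell ε (y i)) - corner ε z0) w} =
      {ω | Tube η δ (corner ε (cell ε (y i)) - corner ε z0) (fun u => incr Z t i u ω)} := rfl
    rw [h3, h1]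
    refine le_trans (ENNReal.ofReal_le_ofReal ?_) h2
    have hnorm : ‖corner ε (cell ε (y i)) - corner ε z0‖ ≤ ε * n * Real.sqrt d := by
      rw [corner_sub]
      refine norm_corner_le ε hε _ _ (Nat.cast_nonneg n) fun j => ?_
      have := hImem i hi j
      simp only [Pi.sub_apply]
      exact_mod_cast this
    have hsq : ‖corner ε (cell ε (y i)) - corner ε z0‖ ^ 2 ≤ (ε * n * Real.sqrt d) ^ 2 :=
      pow_le_pow_left₀ (norm_nonneg _) hnorm 2
    have hexp : Real.exp (-C' * (n : ℝ) ^ 2) ≤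
        Real.exp (-C * ‖corner ε (cell ε (y i)) - corner ε z0‖ ^ 2) := by
      apply Real.exp_le_exp.mpr
      have h4 := mul_le_mul_of_nonneg_left hsq hC.le
      have h5 : 0 ≤ (n : ℝ) ^ 2 := by positivity
      rw [hC']
      have h6 : (ε * n * Real.sqrt d) ^ 2 = (ε * Real.sqrt d) ^ 2 * (n : ℝ) ^ 2 := by ring
      rw [h6] at h4
      nlinarith
    exact mul_le_mul (min_le_left _ _) hexp (Real.exp_pos _).le hc.le
  calc ENNReal.ofReal (a ^ ((2 * n + 1) ^ d)) ≤ ENNReal.ofReal (a ^ I.card) :=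
        ENNReal.ofReal_le_ofReal (pow_le_pow_of_le_one ha0 ha1 hIcard)
    _ = ∏ _i ∈ I, ENNReal.ofReal a := by
        rw [Finset.prod_const, ENNReal.ofReal_pow ha0]
    _ ≤ _ := Finset.prod_le_prod' hfac

end

end Pool.Agent.Helper712_LP
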