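import Mathlib

/-!
# Mobile Poisson nodes and non-anticipating targets (MP_f368f5_pr): definitions

Part 1: the model and the two thresholds (these enter the final statement).
Part 2: cells, vacant cells, connections, and the product measure (auxiliary).
-/

set_option autoImplicit false

namespace Pool.Agent.Helper712_LP

open MeasureTheory ProbabilityTheory Set Filter Topology
open scoped ENNReal NNReal

/-! ## Part 1: the model -/

/-- The Euclidean space `ℝ^d`. -/
abbrev E (d : ℕ) : Type := EuclideanSpace ℝ (Fin d)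

/-- The number of indices `i` for which the point `x i ω` lies in the set `A`. -/
noncomputable def count {d : ℕ} {Ω : Type} (x : ℕ → Ω → E d) (A : Set (E d)) (ω : Ω) : ℝ≥0∞ :=
  ∑' i, A.indicator (fun _ => (1 : ℝ≥0∞)) (x i ω)

/-- The sequence of random points `x 0, x 1, …` enumerates a Poisson point process on `ℝ^d` with
intensity `lam`: the number of points in a Borel set `A` of finite volume is Poisson with mean
`lam * |A|`, and the numbers of points in finitely many disjoint such sets are independent. -/
structure IsPoissonProcess {d : ℕ} {Ω : Type} [MeasurableSpace Ω] (P : Measure Ω) (lam : ℝ≥0)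
    (x : ℕ → Ω → E d) : Prop where
  measurable : ∀ i, Measurable (x i)
  law : ∀ A : Set (E d), MeasurableSet A → volume A ≠ ∞ → P.map (count x A) =
    (poissonMeasure (lam * (volume A).toNNReal)).map (fun n : ℕ => (n : ℝ≥0∞))
  indep : ∀ (ι : Type) [Finite ι] (A : ι → Set (E d)),
    (∀ i, MeasurableSet (A i)) → (∀ i, volume (A i) ≠ ∞) →
    Pairwise (Function.onFun Disjoint A) → iIndepFun (fun i => count x (A i)) P

/-- The mobile nodes: `X` enumerates a Poisson point process of intensity `lam`, and `Z 0, Z 1, …`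
are independent standard Brownian motions in `ℝ^d` (the coordinates of the `Z i` are independent
standard real Brownian motions), independent of the points `X`. At time `s` the node with index
`i` is at the position `X i ω + Z i s ω`. -/
structure MobileNodes {d : ℕ} {Ω : Type} [MeasurableSpace Ω] (P : Measure Ω) (lam : ℝ≥0)
    (X : ℕ → Ω → E d) (Z : ℕ → ℝ≥0 → Ω → E d) : Prop where
  points : IsPoissonProcess P lam X
  measurable : ∀ i t, Measurable (Z i t)
  brownian : ∀ (i : ℕ) (j : Fin d), IsBrownianReal (fun t ω => Z i t ω j) P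
  indep : iIndepFun (fun (p : ℕ × Fin d) ω (t : ℝ≥0) => Z p.1 t ω p.2) P
  indep_points : IndepFun (fun ω i => X i ω) (fun ω i t => Z i t ω) P

/-- The ball around a node in which it detects, closed or open. -/
def nodeBall {d : ℕ} (closed : Bool) (y : E d) (r : ℝ) : Set (E d) :=
  if closed then Metric.closedBall y r else Metric.ball y r

/-- The detected region, for the node positions `y 0, y 1, …`. -/
def detected {d : ℕ} (closed : Bool) (r : ℝ) (y : ℕ → E d) : Set (E d) :=
  ⋃ i, nodeBall closed (y i) r

/-- The vacant region, for the node positions `y 0, y 1, …`. -/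
def vacant {d : ℕ} (closed : Bool) (r : ℝ) (y : ℕ → E d) : Set (E d) :=
  (detected closed r y)ᶜ

/-- The node positions at time `s`. -/
def nodes {d : ℕ} {Ω : Type} (X : ℕ → Ω → E d) (Z : ℕ → ℝ≥0 → Ω → E d) (s : ℝ≥0) (ω : Ω) :
    ℕ → E d := fun i => X i ω + Z i s ω

/-- The information given by the node positions before time `s`: the σ-algebra generated by the
numbers of nodes which are in `A` at time `u`, for all `u < s` and all Borel sets `A`. -/
@[reducible] noncomputable def past {d : ℕ} {Ω : Type} (X : ℕ → Ω → E d) (Z : ℕ → ℝ≥0 → Ω → E d) (s : ℝ≥0) :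
    MeasurableSpace Ω :=
  ⨆ (u : ℝ≥0) (_ : u < s) (A : Set (E d)) (_ : MeasurableSet A),
    MeasurableSpace.comap (count (fun i ω => nodes X Z u ω i) A) inferInstance

/-- A non-anticipating target: a random continuous trajectory `g` started at `0` such that, for
every `s`, the position `g s` is (up to null sets) a function of the node positions before `s`. -/
structure IsTarget {d : ℕ} {Ω : Type} [MeasurableSpace Ω] (P : Measure Ω)
    (X : ℕ → Ω → E d) (Z : ℕ → ℝ≥0 → Ω → E d) (g : ℝ≥0 → Ω → E d) : Prop where
  start : ∀ᵐ ω ∂P, g 0 ω = 0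
  cont : ∀ᵐ ω ∂P, Continuous (fun t => g t ω)
  nonanticipating : ∀ s, ∃ f : Ω → E d, Measurable[past X Z s] f ∧ g s =ᵐ[P] f

/-- The detection time `T(g)`, the infimum of the times at which the target is in the detected
region. -/
noncomputable def detectionTime {d : ℕ} {Ω : Type} (closed : Bool) (r : ℝ) (X : ℕ → Ω → E d)
    (Z : ℕ → ℝ≥0 → Ω → E d) (g : ℝ≥0 → Ω → E d) (ω : Ω) : ℝ≥0∞ :=
  ⨅ (t : ℝ≥0) (_ : g t ω ∈ detected closed r (nodes X Z t ω)), (t : ℝ≥0∞)

/-- The set `V` has an unbounded connected component. -/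
def HasUnboundedComponent {d : ℕ} (V : Set (E d)) : Prop :=
  ∃ z ∈ V, ¬ Bornology.IsBounded (connectedComponentIn V z)

/-- For the Poisson process of intensity `lam`, the vacant region has an unbounded connected
component with positive probability. -/
def Percolates (closed : Bool) (d : ℕ) (r : ℝ) (lam : ℝ≥0) : Prop :=
  ∃ (Ω : Type) (_ : MeasurableSpace Ω) (P : Measure Ω) (_ : IsProbabilityMeasure P)
    (x : ℕ → Ω → E d), IsPoissonProcess P lam x ∧
    0 < P {ω | HasUnboundedComponent (vacant closed r (fun i => x i ω))}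

/-- The vacancy percolation threshold. -/
noncomputable def lamCrit (closed : Bool) (d : ℕ) (r : ℝ) : ℝ≥0∞ :=
  sSup {l : ℝ≥0∞ | ∃ lam : ℝ≥0, l = lam ∧ Percolates closed d r lam}

/-- At intensity `lam`, every non-anticipating target is detected almost surely. -/
def AlwaysDetected (closed : Bool) (d : ℕ) (r : ℝ) (lam : ℝ≥0) : Prop :=
  ∀ (Ω : Type) [MeasurableSpace Ω] (P : Measure Ω) [IsProbabilityMeasure P]
    (X : ℕ → Ω → E d) (Z : ℕ → ℝ≥0 → Ω → E d), MobileNodes P lam X Z →
    ∀ g : ℝ≥0 → Ω → E d, IsTarget P X Z g → ∀ᵐ ω ∂P, detectionTime closed r X Z g ω < ∞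

/-- The detection threshold for non-anticipating targets. -/
noncomputable def lamPast (closed : Bool) (d : ℕ) (r : ℝ) : ℝ≥0∞ :=
  sInf {l : ℝ≥0∞ | ∀ lam : ℝ≥0, l < lam → AlwaysDetected closed d r lam}

/-! ## Part 2: cells -/

/-- The index of the cell of side `ε` containing `x`. -/
noncomputable def cell {d : ℕ} (ε : ℝ) (x : E d) : Fin d → ℤ := fun j => ⌊x j / ε⌋

/-- The corner of the cell `z`. -/
noncomputable def corner {d : ℕ} (ε : ℝ) (z : Fin d → ℤ) : E d :=
  WithLp.toLp 2 (fun j => ε * (z j : ℝ))

/-- `a` and `b` are equal or adjacent (in the maximum norm). -/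
def adj {d : ℕ} (a b : Fin d → ℤ) : Prop := ∀ j, |a j - b j| ≤ 1

/-- `z'` is connected to `z` inside `U`. -/
def Reach {d : ℕ} (U : Set (Fin d → ℤ)) (z z' : Fin d → ℤ) : Prop :=
  z ∈ U ∧ Relation.ReflTransGen (fun a b => adj a b ∧ b ∈ U) z z'

/-- `z` is connected inside `U` to a site at distance at least `n`. -/
def Conn {d : ℕ} (U : Set (Fin d → ℤ)) (z : Fin d → ℤ) (n : ℕ) : Prop :=
  ∃ z', (∃ j, (n : ℤ) ≤ |z' j - z j|) ∧ Reach U z z'

/-- The vacant cells, if `O` is the set of the occupied cells. -/
def vac {d : ℕ} (K : Finset (Fin d → ℤ)) (O : Set (Fin d → ℤ)) : Set (Fin d → ℤ) :=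
  {z | ∀ k ∈ K, z + k ∉ O}

/-- The set of occupied cells coded by `ω`, where `true` means not occupied. -/
def occOf {d : ℕ} (ω : (Fin d → ℤ) → Bool) : Set (Fin d → ℤ) := {z | ω z = false}

/-- The law of one bit: `true` with probability `p` (if `0 ≤ p ≤ 1`). -/
noncomputable def bern (p : ℝ) : Measure Bool :=
  bernoulliMeasure true false (Set.projIcc 0 1 zero_le_one p)

instance (p : ℝ) : IsProbabilityMeasure (bern p) := by
  unfold bern; infer_instance

/-- Independent bits on `ℤ^d`. -/
noncomputable def mu (d : ℕ) (p : ℝ) : Measure ((Fin d → ℤ) → Bool) :=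
  Measure.infinitePi (fun _ : Fin d → ℤ => bern p)

instance (d : ℕ) (p : ℝ) : IsProbabilityMeasure (mu d p) := by
  unfold mu; infer_instance

/-- The probability that `0` is connected to distance `n` in the vacant cells, if the cells are
not occupied with probability `p` independently. -/
noncomputable def theta (d : ℕ) (K : Finset (Fin d → ℤ)) (n : ℕ) (p : ℝ) : ℝ :=
  (mu d p).real {ω | Conn (vac K (occOf ω)) 0 n}

end Pool.Agent.Helper712_LP
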