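import Pool.Agent.Helper712_LP.Defs

/-!
# Deterministic part: cells, path lifting, contraction
-/

set_option autoImplicit false

namespace Pool.Agent.Helper712_LP

open Set Filter Topology

variable {d : ℕ}

theorem adj_symm {a b : Fin d → ℤ} (h : adj a b) : adj b a := fun j => by
  rw [abs_sub_comm]; exact h j

theorem Reach.mem_right {U : Set (Fin d → ℤ)} {z z' : Fin d → ℤ} (h : Reach U z z') : z' ∈ U := by
  obtain ⟨h1, h2⟩ := h
  rcases Relation.ReflTransGen.cases_tail h2 with h | ⟨c, _, h⟩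
  · rw [h]; exact h1
  · exact h.2

theorem Reach.trans {U : Set (Fin d → ℤ)} {a b c : Fin d → ℤ} (h : Reach U a b)
    (h' : Reach U b c) : Reach U a c := ⟨h.1, h.2.trans h'.2⟩

theorem Reach.of_adj {U : Set (Fin d → ℤ)} {a b : Fin d → ℤ} (ha : a ∈ U) (hb : b ∈ U)
    (h : adj a b) : Reach U a b := ⟨ha, Relation.ReflTransGen.single ⟨h, hb⟩⟩

theorem Reach.symm {U : Set (Fin d → ℤ)} {a b : Fin d → ℤ} (h : Reach U a b) : Reach U b a := by
  obtain ⟨h1, h2⟩ := h
  induction h2 with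
  | refl => exact ⟨h1, Relation.ReflTransGen.refl⟩
  | @tail b c hab hbc ih =>
    have hb : b ∈ U := (show Reach U a b from ⟨h1, hab⟩).mem_right
    exact (Reach.of_adj hbc.2 hb (adj_symm hbc.1)).trans ih

theorem Reach.mono {U V : Set (Fin d → ℤ)} (hUV : U ⊆ V) {a b : Fin d → ℤ} (h : Reach U a b) :
    Reach V a b := by
  obtain ⟨h1, h2⟩ := h
  refine ⟨hUV h1, ?_⟩
  induction h2 with
  | refl => exact Relation.ReflTransGen.refl
  | tail _ hbc ih => exact ih.tail ⟨hbc.1, hUV hbc.2⟩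

theorem Conn.mono {U V : Set (Fin d → ℤ)} (hUV : U ⊆ V) {z : Fin d → ℤ} {n : ℕ}
    (h : Conn U z n) : Conn V z n := by
  obtain ⟨z', hz, hr⟩ := h
  exact ⟨z', hz, hr.mono hUV⟩

theorem vac_anti {K : Finset (Fin d → ℤ)} {O O' : Set (Fin d → ℤ)} (h : O ⊆ O') :
    vac K O' ⊆ vac K O := fun _ hz k hk hO => hz k hk (h hO)

/-- The box of radius `n` around `z`. -/
def boxS (z : Fin d → ℤ) (n : ℤ) : Set (Fin d → ℤ) := {u | ∀ j, |u j - z j| ≤ n}

/-- A connection may be cut at the first exit. -/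
theorem Conn.cut {U : Set (Fin d → ℤ)} {z : Fin d → ℤ} {n : ℕ} (h : Conn U z n) :
    Conn (U ∩ boxS z n) z n := by
  obtain ⟨z', hz, hU, hr⟩ := h
  have key : ∀ b, Relation.ReflTransGen (fun a b => adj a b ∧ b ∈ U) z b →
      Conn (U ∩ boxS z n) z n ∨ Reach (U ∩ boxS z n) z b := by
    intro b hb
    induction hb with
    | refl =>
      right
      refine ⟨⟨hU, fun j => ?_⟩, Relation.ReflTransGen.refl⟩
      simp
    | @tail b c hab hbc ih =>
      rcases ih with h | h
      · exact Or.inl h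
      · by_cases hj : ∃ j, (n : ℤ) ≤ |b j - z j|
        · exact Or.inl ⟨b, hj, h⟩
        · push Not at hj
          right
          refine h.trans (Reach.of_adj h.mem_right ⟨hbc.2, fun j => ?_⟩ hbc.1)
          have h1 := hj j
          have h2 := hbc.1 j
          have h3 : c j - z j = (b j - z j) - (b j - c j) := by ring
          rw [h3]
          have := abs_sub (b j - z j) (b j - c j)
          omega
  rcases key z' hr with h | h
  · exact h
  · exact ⟨z', hz, h⟩

theorem conn_local {K : Finset (Fin d → ℤ)} {O : Set (Fin d → ℤ)} {z : Fin d → ℤ} {n k : ℕ}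
    (hK : ∀ u ∈ K, ∀ j, |u j| ≤ (k : ℤ))
    (h : Conn (vac K (O ∩ boxS z (n + k))) z n) : Conn (vac K O) z n := by
  refine (h.cut).mono ?_
  rintro u ⟨hu, hb⟩ v hv hO
  refine hu v hv ⟨hO, fun j => ?_⟩
  have h1 := hb j
  have h2 := hK v hv j
  have h3 : (u + v) j - z j = (u j - z j) + v j := by simp only [Pi.add_apply]; ring
  rw [h3]
  exact (abs_add_le _ _).trans (by omega)

theorem reach_bound {U : Set (Fin d → ℤ)} {z z' : Fin d → ℤ} {n : ℕ} (h : ¬ Conn U z n)
    (hr : Reach U z z') (j : Fin d) : |z' j - z j| < (n : ℤ) := by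
  by_contra hcon
  push Not at hcon
  exact h ⟨z', ⟨j, hcon⟩, hr⟩

theorem adj_cell {ε : ℝ} (hε : 0 < ε) {x y : E d} (h : ∀ j, |x j - y j| < ε) :
    adj (cell ε x) (cell ε y) := by
  intro j
  unfold cell
  have h1 : |x j / ε - y j / ε| < 1 := by
    rw [← sub_div, abs_div, abs_of_pos hε, div_lt_one hε]
    exact h j
  rw [abs_lt] at h1
  have f1 := Int.floor_le (x j / ε)
  have f2 := Int.lt_floor_add_one (x j / ε)
  have f3 := Int.floor_le (y j / ε)
  have f4 := Int.lt_floor_add_one (y j / ε)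
  rw [abs_le]
  constructor
  · have : (-2 : ℝ) < (⌊x j / ε⌋ : ℝ) - (⌊y j / ε⌋ : ℝ) := by linarith
    have : (-2 : ℤ) < ⌊x j / ε⌋ - ⌊y j / ε⌋ := by exact_mod_cast this
    omega
  · have : (⌊x j / ε⌋ : ℝ) - (⌊y j / ε⌋ : ℝ) < 2 := by linarith
    have : ⌊x j / ε⌋ - ⌊y j / ε⌋ < (2 : ℤ) := by exact_mod_cast this
    omega

/-- Path lifting: a continuous path which only visits cells of `U` visits connected cells. -/
theorem reach_of_path {α : Type*} [TopologicalSpace α] {ε : ℝ} (hε : 0 < ε) {I : Set α}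
    (hI : IsPreconnected I) {h : α → E d} (hc : ContinuousOn h I) {U : Set (Fin d → ℤ)}
    (hU : ∀ t ∈ I, cell ε (h t) ∈ U) {a t : α} (ha : a ∈ I) (ht : t ∈ I) :
    Reach U (cell ε (h a)) (cell ε (h t)) := by
  refine hI.induction₂ (fun x y => Reach U (cell ε (h x)) (cell ε (h y))) ?_ ?_ ?_ ha ht
  · intro x hx
    have h1 : ∀ᶠ y in 𝓝[I] x, dist (h y) (h x) < ε :=
      (hc x hx).eventually (Metric.ball_mem_nhds _ hε)
    filter_upwards [h1, self_mem_nhdsWithin] with y hy hyI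
    refine Reach.of_adj (hU x hx) (hU y hyI) (adj_cell hε fun j => ?_)
    have h2 : ‖(h x - h y) j‖ ≤ ‖h x - h y‖ := PiLp.norm_apply_le (h x - h y) j
    rw [Real.norm_eq_abs] at h2
    rw [dist_comm, dist_eq_norm] at hy
    exact lt_of_le_of_lt h2 hy
  · intro x y z _ _ _ h1 h2
    exact h1.trans h2
  · intro x y _ _ h1
    exact h1.symm

/-! ### Cells and distances -/

theorem corner_sub (ε : ℝ) (z z' : Fin d → ℤ) : corner ε z' - corner ε z = corner ε (z' - z) := by
  ext j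
  simp [corner]
  ring

theorem norm_sub_corner {ε : ℝ} (hε : 0 < ε) (x : E d) :
    ‖x - corner ε (cell ε x)‖ ≤ ε * Real.sqrt d := by
  rw [EuclideanSpace.norm_eq]
  have h1 : ∑ i, ‖(x - corner ε (cell ε x)) i‖ ^ 2 ≤ ∑ _i : Fin d, ε ^ 2 := by
    refine Finset.sum_le_sum fun j _ => ?_
    have e : (x - corner ε (cell ε x)) j = x j - ε * (⌊x j / ε⌋ : ℝ) := by
      simp [corner, cell]
    rw [e, Real.norm_eq_abs, sq_abs]
    have f1 := Int.floor_le (x j / ε)
    have f2 := Int.lt_floor_add_one (x j / ε)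
    have h3 : ε * (⌊x j / ε⌋ : ℝ) ≤ x j := by
      have := mul_le_mul_of_nonneg_left f1 hε.le
      rwa [mul_div_cancel₀ _ hε.ne'] at this
    have h4 : x j < ε * (⌊x j / ε⌋ : ℝ) + ε := by
      have := mul_lt_mul_of_pos_left f2 hε
      rw [mul_div_cancel₀ _ hε.ne'] at this
      linarith
    have h5 : 0 ≤ x j - ε * (⌊x j / ε⌋ : ℝ) := by linarith
    have h6 : x j - ε * (⌊x j / ε⌋ : ℝ) ≤ ε := by linarith
    exact pow_le_pow_left₀ h5 h6 2
  rw [Finset.sum_const, Finset.card_univ, Fintype.card_fin, nsmul_eq_mul] at h1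
  calc Real.sqrt (∑ i, ‖(x - corner ε (cell ε x)) i‖ ^ 2) ≤ Real.sqrt (d * ε ^ 2) :=
        Real.sqrt_le_sqrt h1
    _ = ε * Real.sqrt d := by
        rw [Real.sqrt_mul (Nat.cast_nonneg d), Real.sqrt_sq hε.le, mul_comm]

theorem norm_corner_le (ε : ℝ) (hε : 0 < ε) (z : Fin d → ℤ) (n : ℝ) (hn : 0 ≤ n)
    (hz : ∀ j, |(z j : ℝ)| ≤ n) : ‖corner ε z‖ ≤ ε * n * Real.sqrt d := by
  rw [EuclideanSpace.norm_eq]
  have h1 : ∑ i, ‖(corner ε z) i‖ ^ 2 ≤ ∑ _i : Fin d, (ε * n) ^ 2 := by
    refine Finset.sum_le_sum fun j _ => ?_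
    have e : (corner ε z) j = ε * (z j : ℝ) := by simp [corner]
    rw [e, Real.norm_eq_abs, abs_mul, abs_of_pos hε]
    exact pow_le_pow_left₀ (by positivity) (mul_le_mul_of_nonneg_left (hz j) hε.le) 2
  rw [Finset.sum_const, Finset.card_univ, Fintype.card_fin, nsmul_eq_mul] at h1
  calc Real.sqrt (∑ i, ‖(corner ε z) i‖ ^ 2) ≤ Real.sqrt (d * (ε * n) ^ 2) :=
        Real.sqrt_le_sqrt h1
    _ = ε * n * Real.sqrt d := by
        rw [Real.sqrt_mul (Nat.cast_nonneg d), Real.sqrt_sq (by positivity), mul_comm]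

theorem abs_le_norm_corner (ε : ℝ) (hε : 0 < ε) (z : Fin d → ℤ) (j : Fin d) :
    ε * |(z j : ℝ)| ≤ ‖corner ε z‖ := by
  have h := PiLp.norm_apply_le (corner ε z) j
  have e : (corner ε z) j = ε * (z j : ℝ) := by simp [corner]
  rw [e, Real.norm_eq_abs, abs_mul, abs_of_pos hε] at h
  exact h

theorem finite_corner (ε ρ : ℝ) (hε : 0 < ε) :
    {k : Fin d → ℤ | ‖corner ε k‖ < ρ}.Finite := by
  obtain ⟨n, hn⟩ := exists_nat_gt (ρ / ε)
  refine (Set.finite_Icc (fun _ : Fin d => -(n : ℤ)) (fun _ => (n : ℤ))).subset ?_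
  intro k hk
  simp only [mem_ofPred_eq] at hk
  have h1 : ∀ j, |k j| ≤ (n : ℤ) := by
    intro j
    have h2 := abs_le_norm_corner ε hε k j
    have h3 : |(k j : ℝ)| < n := by
      refine lt_trans ?_ hn
      rw [lt_div_iff₀ hε]
      linarith
    have : |k j| < (n : ℤ) := by exact_mod_cast h3
    exact this.le
  exact ⟨fun j => (abs_le.mp (h1 j)).1, fun j => (abs_le.mp (h1 j)).2⟩

/-- The cells which are entirely near the cell `0`. -/
noncomputable def Kfin (d : ℕ) (ε ρ : ℝ) (hε : 0 < ε) : Finset (Fin d → ℤ) :=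
  (finite_corner (d := d) ε ρ hε).toFinset

theorem mem_Kfin {ε ρ : ℝ} {hε : 0 < ε} {k : Fin d → ℤ} :
    k ∈ Kfin d ε ρ hε ↔ ‖corner ε k‖ < ρ := by
  simp [Kfin]

/-- If `x` is at distance at least `ρ + ε √d` from the corners of all cells of `O`, then the cell
of `x` is vacant. -/
theorem cell_mem_vac {ε ρ : ℝ} (hε : 0 < ε) {O : Set (Fin d → ℤ)} {x : E d}
    (h : ∀ z ∈ O, ρ + ε * Real.sqrt d ≤ ‖x - corner ε z‖) :
    cell ε x ∈ vac (Kfin d ε ρ hε) O := by
  intro k hk hO
  rw [mem_Kfin] at hk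
  have h1 := h _ hO
  have h2 := norm_sub_corner hε x
  have h3 : x - corner ε (cell ε x + k) = (x - corner ε (cell ε x)) - corner ε k := by
    have : corner ε (cell ε x + k) = corner ε (cell ε x) + corner ε k := by
      ext j; simp [corner]; ring
    rw [this]; abel
  rw [h3] at h1
  have h4 := norm_sub_le (x - corner ε (cell ε x)) (corner ε k)
  linarith

/-- Short time: an undetected target stays in the vacant cluster of the cells of the nodes which
stay. -/
theorem stay_lemma {ε η r : ℝ} (hε : 0 < ε) {O : Set (Fin d → ℤ)} {y : ℕ → E d}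
    {Y : ℕ → ℝ → E d} {x : ℝ → E d}
    (hO : ∀ z ∈ O, ∃ i, cell ε (y i) = z ∧ ∀ q ∈ Icc (0:ℝ) 1, ‖Y i q - y i‖ ≤ η)
    (hx : ContinuousOn x (Icc 0 1)) (hund : ∀ q ∈ Icc (0:ℝ) 1, ∀ i, r ≤ ‖x q - Y i q‖)
    {q : ℝ} (hq : q ∈ Icc (0:ℝ) 1) :
    Reach (vac (Kfin d ε (r - 2 * (ε * Real.sqrt d) - η) hε) O) (cell ε (x 0)) (cell ε (x q)) := by
  refine reach_of_path hε isPreconnected_Icc hx ?_ (left_mem_Icc.mpr zero_le_one) hq
  intro t ht
  refine cell_mem_vac hε fun z hz => ?_
  obtain ⟨i, hi, hY⟩ := hO z hz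
  have h1 := hund t ht i
  have h2 := hY t ht
  have h3 := norm_sub_corner hε (y i)
  rw [hi] at h3
  have h4 : x t - Y i t = (x t - corner ε z) - (y i - corner ε z) - (Y i t - y i) := by abel
  have h5 : ‖x t - Y i t‖ ≤ ‖x t - corner ε z‖ + ‖y i - corner ε z‖ + ‖Y i t - y i‖ := by
    rw [h4]
    exact (norm_sub_le _ _).trans (add_le_add (norm_sub_le _ _) le_rfl)
  linarith

/-- The contraction lemma. -/
theorem contraction_lemma [NeZero d] {ε η r : ℝ} (hε : 0 < ε)
    (hρ : 0 < r - 2 * (ε * Real.sqrt d) - η) (hη : 0 ≤ η)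
    {O : Set (Fin d → ℤ)} {y : ℕ → E d} {Y : ℕ → ℝ → E d} {x : ℝ → E d} {D kr : ℕ}
    (hkr : ∀ u ∈ Kfin d ε (r - 2 * (ε * Real.sqrt d) - η) hε, ∀ j, |u j| ≤ (kr : ℤ))
    (hconn : ¬ Conn (vac (Kfin d ε (r - 2 * (ε * Real.sqrt d) - η) hε) O) (cell ε (x 0)) D)
    (hO : ∀ z ∈ O, z ∈ boxS (cell ε (x 0)) (D + kr) → ∃ i, cell ε (y i) = z ∧
      ∀ q ∈ Icc (0:ℝ) 1, ‖Y i q - y i + q • (corner ε z - corner ε (cell ε (x 0)))‖ ≤ η)
    (hx : ContinuousOn x (Icc 0 1)) : ∃ q ∈ Icc (0:ℝ) 1, ∃ i, ‖x q - Y i q‖ < r := by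
  by_contra hcon
  push Not at hcon
  set K := Kfin d ε (r - 2 * (ε * Real.sqrt d) - η) hε with hK
  set z0 := cell ε (x 0) with hz0
  set O' := O ∩ boxS z0 (D + kr) with hO'
  have hconn' : ¬ Conn (vac K O') z0 D := fun h => hconn (conn_local hkr h)
  -- positions of the nodes
  have hnode : ∀ z ∈ O', ∃ i, ∀ q ∈ Icc (0:ℝ) 1,
      ‖Y i q - (corner ε z0 + (1 - q) • (corner ε z - corner ε z0))‖ ≤ ε * Real.sqrt d + η := by
    rintro z ⟨hz, hzb⟩
    obtain ⟨i, hi, hY⟩ := hO z hz hzb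
    refine ⟨i, fun q hq => ?_⟩
    have h1 := hY q hq
    have h3 := norm_sub_corner hε (y i)
    rw [hi] at h3
    have h4 : Y i q - (corner ε z0 + (1 - q) • (corner ε z - corner ε z0)) =
        (y i - corner ε z) + (Y i q - y i + q • (corner ε z - corner ε z0)) := by
      rw [sub_smul, one_smul]; abel
    rw [h4]
    exact (norm_add_le _ _).trans (add_le_add h3 h1)
  -- the expanded trajectory
  set h : ℝ → E d := fun q => corner ε z0 + (1 - q)⁻¹ • (x q - corner ε z0) with hh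
  have hh0 : h 0 = x 0 := by simp [hh]
  have hhc : ContinuousOn h (Ico 0 1) := by
    refine continuousOn_const.add (ContinuousOn.fun_smul ?_ ?_)
    · refine ContinuousOn.inv₀ (continuousOn_const.sub continuousOn_id) ?_
      intro q hq
      have := hq.2
      have h2 : (1 : ℝ) - id q ≠ 0 := by
        rw [id]
        linarith
      exact h2
    · exact (hx.mono Ico_subset_Icc_self).sub continuousOn_const
  have hcell : ∀ q ∈ Ico (0:ℝ) 1, cell ε (h q) ∈ vac K O' := by
    intro q hq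
    have h1q : 0 < 1 - q := by linarith [hq.2]
    refine cell_mem_vac hε fun z hz => ?_
    obtain ⟨i, hi⟩ := hnode z hz
    have h1 := hi q ⟨hq.1, hq.2.le⟩
    have h2 := hcon q ⟨hq.1, hq.2.le⟩ i
    have e1 : h q - corner ε z = (1 - q)⁻¹ • (x q - (corner ε z0 + (1 - q) • (corner ε z -
        corner ε z0))) := by
      simp only [hh]
      rw [← sub_sub (x q), smul_sub ((1 - q)⁻¹) (x q - corner ε z0), smul_smul,
        inv_mul_cancel₀ h1q.ne', one_smul]
      abel
    have h3 : r - (ε * Real.sqrt d + η) ≤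
        ‖x q - (corner ε z0 + (1 - q) • (corner ε z - corner ε z0))‖ := by
      have e2 : x q - Y i q = (x q - (corner ε z0 + (1 - q) • (corner ε z - corner ε z0))) -
          (Y i q - (corner ε z0 + (1 - q) • (corner ε z - corner ε z0))) := by abel
      rw [e2] at h2
      have := norm_sub_le (x q - (corner ε z0 + (1 - q) • (corner ε z - corner ε z0)))
        (Y i q - (corner ε z0 + (1 - q) • (corner ε z - corner ε z0)))
      linarith
    rw [e1, norm_smul, Real.norm_eq_abs, abs_of_pos (inv_pos.mpr h1q)]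
    have h4 : 1 ≤ (1 - q)⁻¹ := by
      rw [one_le_inv₀ h1q]
      linarith [hq.1]
    have h5 : r - 2 * (ε * Real.sqrt d) - η + ε * Real.sqrt d ≤ r - (ε * Real.sqrt d + η) := by
      linarith
    have h6 : 0 ≤ r - (ε * Real.sqrt d + η) := by
      have : 0 ≤ ε * Real.sqrt d := by positivity
      linarith
    calc r - 2 * (ε * Real.sqrt d) - η + ε * Real.sqrt d ≤ r - (ε * Real.sqrt d + η) := h5
      _ ≤ ‖x q - (corner ε z0 + (1 - q) • (corner ε z - corner ε z0))‖ := h3
      _ ≤ (1 - q)⁻¹ * ‖x q - (corner ε z0 + (1 - q) • (corner ε z - corner ε z0))‖ :=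
          le_mul_of_one_le_left (norm_nonneg _) h4
  have hbound : ∀ q ∈ Ico (0:ℝ) 1, ‖x q - corner ε z0‖ ≤
      (1 - q) * (ε * (D + 1) * Real.sqrt d) := by
    intro q hq
    have h1q : 0 < 1 - q := by linarith [hq.2]
    have hr : Reach (vac K O') (cell ε (h 0)) (cell ε (h q)) :=
      reach_of_path hε isPreconnected_Ico hhc hcell (left_mem_Ico.mpr zero_lt_one) hq
    rw [hh0] at hr
    have hb := fun j => reach_bound hconn' hr j
    have h1 : ‖h q - corner ε z0‖ ≤ ε * (D + 1) * Real.sqrt d := by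
      have h2 := norm_sub_corner hε (h q)
      have h3 : ‖corner ε (cell ε (h q)) - corner ε z0‖ ≤ ε * D * Real.sqrt d := by
        rw [corner_sub]
        refine norm_corner_le ε hε _ _ (Nat.cast_nonneg D) fun j => ?_
        have := (hb j).le
        simp only [Pi.sub_apply]
        exact_mod_cast this
      have h4 : h q - corner ε z0 = (h q - corner ε (cell ε (h q))) +
          (corner ε (cell ε (h q)) - corner ε z0) := by abel
      rw [h4]
      calc _ ≤ _ := norm_add_le _ _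
        _ ≤ ε * Real.sqrt d + ε * D * Real.sqrt d := add_le_add h2 h3
        _ = _ := by ring
    have e1 : x q - corner ε z0 = (1 - q) • (h q - corner ε z0) := by
      simp only [hh]
      rw [add_sub_cancel_left, smul_smul, mul_inv_cancel₀ h1q.ne', one_smul]
    rw [e1, norm_smul, Real.norm_eq_abs, abs_of_pos h1q]
    exact mul_le_mul_of_nonneg_left h1 h1q.le
  -- the target ends at the corner
  have hend : x 1 = corner ε z0 := by
    have h1 : Tendsto (fun q : ℝ => ‖x q - corner ε z0‖) (𝓝[<] 1) (𝓝 ‖x 1 - corner ε z0‖) := by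
      have h2 : Tendsto x (𝓝[<] 1) (𝓝 (x 1)) := by
        have := hx 1 (right_mem_Icc.mpr zero_le_one)
        refine this.mono_left ?_
        rw [← nhdsWithin_Ico_eq_nhdsLT (zero_lt_one (α := ℝ))]
        exact nhdsWithin_mono 1 Ico_subset_Icc_self
      exact (h2.sub_const _).norm
    have h3 : Tendsto (fun q : ℝ => (1 - q) * (ε * (D + 1) * Real.sqrt d)) (𝓝[<] 1) (𝓝 0) := by
      have : Tendsto (fun q : ℝ => (1 - q) * (ε * (D + 1) * Real.sqrt d)) (𝓝 1)
          (𝓝 ((1 - 1) * (ε * (D + 1) * Real.sqrt d))) :=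
        (continuous_const.sub continuous_id).mul continuous_const |>.tendsto 1
      rw [sub_self, zero_mul] at this
      exact this.mono_left nhdsWithin_le_nhds
    have h4 : ‖x 1 - corner ε z0‖ ≤ 0 := by
      refine le_of_tendsto_of_tendsto h1 h3 ?_
      rw [← nhdsWithin_Ico_eq_nhdsLT (zero_lt_one (α := ℝ))]
      filter_upwards [self_mem_nhdsWithin] with q hq
      exact hbound q hq
    exact sub_eq_zero.mp (norm_le_zero_iff.mp h4)
  -- there is a node in the range
  have hne : ∃ z, z ∈ O' := by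
    by_contra hempty
    push Not at hempty
    apply hconn'
    have hvac : ∀ z, z ∈ vac K O' := fun z k _ hO => hempty _ hO
    -- walk in the first direction
    have hwalk : ∀ n : ℕ, Reach (vac K O') z0 (z0 + Pi.single (0 : Fin d) (n : ℤ)) := by
      intro n
      induction n with
      | zero =>
        have h0 : z0 + Pi.single (0 : Fin d) ((0 : ℕ) : ℤ) = z0 := by simp
        rw [h0]
        exact ⟨hvac z0, Relation.ReflTransGen.refl⟩
      | succ n ih =>
        refine ih.trans (Reach.of_adj (hvac _) (hvac _) fun j => ?_)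
        by_cases hj : j = 0
        · subst hj; simp
        · simp [hj]
    refine ⟨_, ⟨0, ?_⟩, hwalk D⟩
    simp
  obtain ⟨z, hz⟩ := hne
  obtain ⟨i, hi⟩ := hnode z hz
  have h1 := hi 1 (right_mem_Icc.mpr zero_le_one)
  have h2 := hcon 1 (right_mem_Icc.mpr zero_le_one) i
  rw [hend] at h2
  simp only [sub_self, zero_smul, add_zero] at h1
  rw [norm_sub_rev] at h2
  have : 0 ≤ ε * Real.sqrt d := by positivity
  linarith

end Pool.Agent.Helper712_LP
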