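import Pool.Agent.Helper712_LP.Stmts
import Pool.Agent.Helper712_LP.Geom

/-!
# MP_f368f5_pr: statements of the last two independent parts
-/

set_option autoImplicit false

namespace Pool.Agent.Helper712_LP

open MeasureTheory ProbabilityTheory Set Filter Topology
open scoped ENNReal NNReal

/-- If the vacant region of the balls of radius `r'` does not percolate, then the connection
probabilities of the vacant cells tend to `0` (the closed cells of the vacant cluster of `0` form
a connected subset of the vacant region). -/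
def S_perc : Prop := ∀ (d : ℕ), 1 ≤ d → ∀ (closed : Bool) (r' : ℝ) (lam : ℝ≥0), 0 < lam →
  ¬ Percolates closed d r' lam → ∀ (ε ρ : ℝ) (hε : 0 < ε), r' + 2 * (ε * Real.sqrt d) < ρ →
  Tendsto (fun n => theta d (Kfin d ε ρ hε) n (Real.exp (-(lam * ε ^ d)))) atTop (𝓝 0)

/-- Above the threshold there is room for a smaller intensity and a smaller radius. -/
def S_critScale : Prop := ∀ (d : ℕ), 1 ≤ d → ∀ (closed : Bool) (r : ℝ), 0 < r → ∀ lam : ℝ≥0,
  lamCrit closed d r < lam → ∃ (lam0 : ℝ≥0) (r' : ℝ), 0 < lam0 ∧ lam0 < lam ∧ 0 < r' ∧ r' < r ∧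
    ¬ Percolates closed d r' lam0

end Pool.Agent.Helper712_LP
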