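import Pool.Agent.Helper712_LP.Main
import Pool.Agent.Helper712_LP.Stmts2
import Pool.Agent.Helper114_LP.MeasLaw
import Pool.Agent.Helper114_LP.Decouple
import Pool.Agent.Helper209_LP.Sharp
import Pool.Agent.Helper209_LP.Ode
import Pool.Agent.Helper209_LP.Scale
import Pool.Agent.Helper209_LP.Short
import Pool.Agent.Helper209_LP.TubeProof
import Pool.Agent.Helper774_LP.Diff
import Pool.Agent.Helper56_LP.Void
import Pool.Agent.Helper56_LP.Marked
import Pool.Agent.Helper56_LP.Paths
import Pool.Agent.Helper56_LP.ExistsMobile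
import Pool.Agent.Helper442_LP.Stay
import Pool.Agent.Helper442_LP.Count

/-!
# Above the vacancy percolation threshold every non-anticipating target is detected
-/

set_option autoImplicit false

namespace Pool.Agent.Helper712_LP

open MeasureTheory ProbabilityTheory Set Filter Topology
open scoped ENNReal NNReal

theorem sharp_all : S_sharp :=
  Helper209_LP.sharp Helper114_LP.basic (Helper774_LP.diff Helper114_LP.basic Helper114_LP.law)

theorem always_detected (hperc : S_perc) (hcrit : S_critScale) (closed : Bool) (d : ℕ)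
    (hd : 1 ≤ d) (r : ℝ) (hr : 0 < r) (lam : ℝ≥0) (hlam : lamCrit closed d r < lam) :
    AlwaysDetected closed d r lam := by
  intro Ω _ P _ X Z hN g hT
  haveI : NeZero d := ⟨by omega⟩
  obtain ⟨lam0, r', h0, h0lam, hr'0, hr', hnp⟩ := hcrit d hd closed r hr lam hlam
  have h0r : (0 : ℝ) < lam0 := by exact_mod_cast h0
  have h0lamr : (lam0 : ℝ) < lam := by exact_mod_cast h0lam
  set q : ℝ := r - r' with hq
  have hq0 : 0 < q := by rw [hq]; linarith
  set ε : ℝ := q / (8 * (Real.sqrt d + 1)) with hεdef
  have hs0 : 0 ≤ Real.sqrt d := Real.sqrt_nonneg _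
  have hε : 0 < ε := by positivity
  have hεs : 8 * (ε * Real.sqrt d) ≤ q := by
    have h1 : ε * (8 * (Real.sqrt d + 1)) = q := by
      rw [hεdef]; field_simp
    nlinarith
  set η : ℝ := q / 4 with hη
  have hη0 : 0 < η := by positivity
  have hρ : 0 < r - 2 * (ε * Real.sqrt d) - η := by
    rw [hη]; linarith
  have hp := hperc d hd closed r' lam0 h0 hnp ε (r - 2 * (ε * Real.sqrt d) - η) hε
    (by rw [hη]; linarith)
  set l2 : ℝ := lam0 + (lam - lam0) / 3 with hl2
  set l3 : ℝ := lam0 + 2 * (lam - lam0) / 3 with hl3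
  have hεd : 0 < ε ^ d := by positivity
  have hK : (Kfin d ε (r - 2 * (ε * Real.sqrt d) - η) hε).Nonempty := by
    refine ⟨0, mem_Kfin.mpr ?_⟩
    have : corner ε (0 : Fin d → ℤ) = 0 := by
      ext j; simp [corner]
    rw [this, norm_zero]
    exact hρ
  have hsharp := sharp_all d hd _ hK (Real.exp (-(l2 * ε ^ d))) (Real.exp (-(lam0 * ε ^ d)))
    (Real.exp_pos _) (by
      apply Real.exp_lt_exp.mpr
      have : (lam0 : ℝ) < l2 := by rw [hl2]; linarith
      have := mul_lt_mul_of_pos_right this hεd
      linarith) (by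
      rw [Real.exp_lt_one_iff]
      have := mul_pos h0r hεd
      linarith) hp
  exact main_detect Helper114_LP.measConn Helper114_LP.law Helper114_LP.basic
    (Helper442_LP.stay Helper56_LP.marked Helper56_LP.pathLaw Helper56_LP.pathIndep
      Helper56_LP.shift)
    (Helper442_LP.count Helper56_LP.marked Helper56_LP.pathLaw Helper56_LP.pathIndep)
    Helper56_LP.shift Helper56_LP.pathLaw Helper56_LP.pathIndep Helper56_LP.markov
    Helper209_LP.short Helper209_LP.tube Helper114_LP.Dec.decouple hN hT hε hρ hη0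
    (l2 := l2) (l3 := l3) (by rw [hl2]; linarith) (by rw [hl2, hl3]; linarith)
    (by rw [hl3]; linarith) hsharp

theorem lamPast_le (hperc : S_perc) (hcrit : S_critScale) (closed : Bool) (d : ℕ)
    (hd : 1 ≤ d) (r : ℝ) (hr : 0 < r) : lamPast closed d r ≤ lamCrit closed d r :=
  sInf_le fun lam hlam => always_detected hperc hcrit closed d hd r hr lam hlam

end Pool.Agent.Helper712_LP
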