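import Pool.Agent.Helper712_LP.Stmts

/-!
# Freezing: conditioning on an independent past
-/

set_option autoImplicit false

namespace Pool.Agent.Helper712_LP

open MeasureTheory ProbabilityTheory Set Filter Topology
open scoped ENNReal NNReal

section Freeze

variable {Ω : Type} {m1 : MeasurableSpace Ω} [mΩ : MeasurableSpace Ω] {P : Measure Ω}
  [IsProbabilityMeasure P]
  {S T : Type} [MeasurableSpace S] [MeasurableSpace T] {Y : Ω → S} {W : Ω → T}

theorem freeze_eq (hm1 : m1 ≤ mΩ) (hY : Measurable[m1] Y) (hW : Measurable W)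
    (hind : Indep m1 (MeasurableSpace.comap W inferInstance) P) {H : Set (S × T)}
    (hH : MeasurableSet H) {G : Set Ω} (hG : MeasurableSet[m1] G) :
    P (G ∩ {ω | (Y ω, W ω) ∈ H}) = ∫⁻ ω in G, P {ω' | (Y ω, W ω') ∈ H} ∂P := by
  have hY' : Measurable Y := hY.mono hm1 le_rfl
  have hG' : MeasurableSet G := hm1 _ hG
  have hYW : Measurable (fun ω => (Y ω, W ω)) := hY'.prodMk hW
  have hPW : IsProbabilityMeasure (P.map W) := Measure.isProbabilityMeasure_map hW.aemeasurable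
  have key : (P.restrict G).map (fun ω => (Y ω, W ω)) =
      ((P.restrict G).map Y).prod (P.map W) := by
    symm
    refine Measure.prod_eq fun A B hA hB => ?_
    rw [Measure.map_apply hYW (hA.prod hB), Measure.map_apply hY' hA, Measure.map_apply hW hB,
      Measure.restrict_apply (hYW (hA.prod hB)), Measure.restrict_apply (hY' hA)]
    have h1 : (fun ω => (Y ω, W ω)) ⁻¹' A ×ˢ B ∩ G = (Y ⁻¹' A ∩ G) ∩ W ⁻¹' B := by
      ext ω
      simp only [mem_inter_iff, mem_preimage, mem_prod]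
      tauto
    rw [h1]
    have h2 : MeasurableSet[m1] (Y ⁻¹' A ∩ G) :=
      MeasurableSet.inter (hY hA) hG
    exact (Indep_iff m1 (MeasurableSpace.comap W inferInstance) P).mp hind _ _ h2 ⟨B, hB, rfl⟩
  have h1 : P (G ∩ {ω | (Y ω, W ω) ∈ H}) = (P.restrict G).map (fun ω => (Y ω, W ω)) H := by
    rw [Measure.map_apply hYW hH, Measure.restrict_apply (hYW hH), inter_comm]
    rfl
  rw [h1, key, Measure.prod_apply hH, lintegral_map (measurable_measure_prodMk_left hH) hY']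
  refine lintegral_congr fun ω => ?_
  rw [Measure.map_apply hW (measurable_prodMk_left hH)]
  rfl

theorem freeze_le (hm1 : m1 ≤ mΩ) (hY : Measurable[m1] Y) (hW : Measurable W)
    (hind : Indep m1 (MeasurableSpace.comap W inferInstance) P) {H : Set (S × T)}
    (hH : MeasurableSet H) {G : Set Ω} (hG : MeasurableSet[m1] G) {ψ : ℝ≥0∞}
    (hψ : ∀ ω ∈ G, P {ω' | (Y ω, W ω') ∈ H} ≤ ψ) :
    P (G ∩ {ω | (Y ω, W ω) ∈ H}) ≤ ψ * P G := by
  rw [freeze_eq hm1 hY hW hind hH hG]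
  calc ∫⁻ ω in G, P {ω' | (Y ω, W ω') ∈ H} ∂P ≤ ∫⁻ _ω in G, ψ ∂P :=
        setLIntegral_mono' (hm1 _ hG) hψ
    _ = ψ * P G := by rw [setLIntegral_const]

theorem freeze_ge (hm1 : m1 ≤ mΩ) (hY : Measurable[m1] Y) (hW : Measurable W)
    (hind : Indep m1 (MeasurableSpace.comap W inferInstance) P) {H : Set (S × T)}
    (hH : MeasurableSet H) {G : Set Ω} (hG : MeasurableSet[m1] G) {ψ : ℝ≥0∞}
    (hψ : ∀ ω ∈ G, ψ ≤ P {ω' | (Y ω, W ω') ∈ H}) :
    ψ * P G ≤ P (G ∩ {ω | (Y ω, W ω) ∈ H}) := by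
  rw [freeze_eq hm1 hY hW hind hH hG]
  calc ψ * P G = ∫⁻ _ω in G, ψ ∂P := by rw [setLIntegral_const]
    _ ≤ ∫⁻ ω in G, P {ω' | (Y ω, W ω') ∈ H} ∂P := setLIntegral_mono' (hm1 _ hG) hψ

end Freeze

end Pool.Agent.Helper712_LP
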