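import Pool.Agent.Helper712_LP.Iter

/-!
# The deterministic inclusion
-/

set_option autoImplicit false
set_option linter.unusedSectionVars false

namespace Pool.Agent.Helper712_LP

open MeasureTheory ProbabilityTheory Set Filter Topology
open scoped ENNReal NNReal

variable {d : ℕ}

theorem tube_real {η : ℝ} {δ : ℝ≥0} {v : E d} {w : ℝ≥0 → E d} (hw : Continuous w)
    (h : Tube η δ v w) {q : ℝ} (hq : q ∈ Icc (0:ℝ) 1) :
    ‖w (δ * q.toNNReal) + q • v‖ ≤ η := by
  set A : Set ℝ≥0 := {p | ‖w (δ * p) + (p : ℝ) • v‖ ≤ η} with hA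
  have hclosed : IsClosed A := by
    refine isClosed_le ?_ continuous_const
    fun_prop
  have hrat : ∀ p : ℚ≥0, p ≤ 1 → (p : ℝ≥0) ∈ A := fun p hp => h p hp
  have hdense : DenseRange ((↑) : ℚ≥0 → ℝ≥0) := by
    rw [denseRange_iff_closure_range]
    refine eq_univ_of_forall fun x => ?_
    rw [mem_closure_iff_nhds_basis (Metric.nhds_basis_ball)]
    intro e he
    obtain ⟨p, hp1, hp2⟩ := exists_rat_btwn (show (x : ℝ) < x + e by linarith)
    have hp0 : (0 : ℚ) ≤ p := by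
      have : (0 : ℝ) ≤ (p : ℝ) := x.2.trans hp1.le
      exact_mod_cast this
    obtain ⟨p', hp'⟩ : ∃ p' : ℚ≥0, (p' : ℚ) = p := ⟨⟨p, hp0⟩, rfl⟩
    refine ⟨(p' : ℝ≥0), mem_range_self _, ?_⟩
    rw [Metric.mem_ball, NNReal.dist_eq]
    have e1 : ((p' : ℝ≥0) : ℝ) = (p : ℝ) := by
      have e2 : ((p' : ℝ≥0) : ℝ) = (p' : ℝ) := rfl
      rw [← hp', e2]
      exact (Rat.cast_nnratCast p').symm
    rw [e1, abs_of_nonneg (by linarith)]
    linarith
  have hmem : ∀ p : ℝ≥0, p ≤ 1 → p ∈ A := by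
    intro p hp
    rcases lt_or_eq_of_le hp with hlt | heq
    · have h1 := hdense.open_subset_closure_inter (isOpen_Iio (a := (1 : ℝ≥0)))
      have h2 : Iio (1 : ℝ≥0) ∩ range ((↑) : ℚ≥0 → ℝ≥0) ⊆ A := by
        rintro _ ⟨h3, ⟨p', rfl⟩⟩
        refine hrat p' ?_
        have h4 : (p' : ℝ≥0) < 1 := h3
        exact_mod_cast h4.le
      exact closure_minimal h2 hclosed (h1 hlt)
    · have := hrat 1 le_rfl
      rw [heq]
      exact_mod_cast this
  have := hmem q.toNNReal (by simpa using hq.2)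
  simp only [hA, mem_ofPred_eq, Real.coe_toNNReal q hq.1] at this
  exact this

section

variable {Ω : Type} [mΩ : MeasurableSpace Ω] {P : Measure Ω}
  {lam : ℝ≥0} {X : ℕ → Ω → E d} {Z : ℕ → ℝ≥0 → Ω → E d} {g : ℝ≥0 → Ω → E d}

/-- The sample point `ω` is not detected. -/
def Undetected (r : ℝ) (X : ℕ → Ω → E d) (Z : ℕ → ℝ≥0 → Ω → E d) (g : ℝ≥0 → Ω → E d) (ω : Ω) :
    Prop := ∀ t i, r ≤ ‖g t ω - nodes X Z t ω i‖

theorem undetected_of_top {closed : Bool} {r : ℝ} {ω : Ω}
    (h : detectionTime closed r X Z g ω = ∞) : Undetected r X Z g ω := by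
  intro t i
  by_contra hcon
  push Not at hcon
  have hmem : g t ω ∈ detected closed r (nodes X Z t ω) := by
    refine mem_iUnion.mpr ⟨i, ?_⟩
    have h1 : g t ω ∈ Metric.ball (nodes X Z t ω i) r := by
      rwa [Metric.mem_ball, dist_eq_norm]
    unfold nodeBall
    split
    · exact Metric.ball_subset_closedBall h1
    · exact h1
  have h2 : detectionTime closed r X Z g ω ≤ (t : ℝ≥0∞) :=
    iInf₂_le t hmem
  rw [h] at h2
  exact absurd h2 (by simp)

theorem stay_step {ε η r : ℝ} (hε : 0 < ε) {δ s : ℝ≥0} {ω : Ω} {R : ℕ}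
    (hg : Continuous (fun t => g t ω)) (hZ : ∀ i, Continuous (fun t => Z i t ω))
    (hund : Undetected r X Z g ω)
    (hconn : ¬ Conn (vac (Kfin d ε (r - 2 * (ε * Real.sqrt d) - η) hε)
      (occStay ε η δ X Z s ω)) (cell ε (g s ω)) R) :
    cell ε (g (s + δ) ω) ∈ boxS (cell ε (g s ω)) R := by
  have hO : ∀ z ∈ occStay ε η δ X Z s ω, ∃ i, cell ε (nodes X Z s ω i) = z ∧
      ∀ q ∈ Icc (0:ℝ) 1, ‖nodes X Z (s + δ * q.toNNReal) ω i - nodes X Z s ω i‖ ≤ η := by
    rintro z ⟨i, hi, hT⟩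
    refine ⟨i, hi, fun q hq => ?_⟩
    have hc : Continuous (fun u => incr Z s i u ω) := by
      unfold incr
      have := hZ i
      fun_prop
    have h1 := tube_real hc hT hq
    have e : nodes X Z (s + δ * q.toNNReal) ω i - nodes X Z s ω i =
        incr Z s i (δ * q.toNNReal) ω + q • (0 : E d) := by
      simp only [nodes, incr, smul_zero, add_zero]
      abel
    rw [e]
    exact h1
  have hx : ContinuousOn (fun q : ℝ => g (s + δ * q.toNNReal) ω) (Icc 0 1) := by
    have hcomp : Continuous (fun q : ℝ => g (s + δ * q.toNNReal) ω) :=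
      hg.comp (by fun_prop)
    exact hcomp.continuousOn
  have h1 := stay_lemma hε (r := r) (η := η) (Y := fun i q => nodes X Z (s + δ * q.toNNReal) ω i)
    hO hx (fun q _ i => hund _ i) (right_mem_Icc.mpr zero_le_one)
  have e0 : g (s + δ * (0:ℝ).toNNReal) ω = g s ω := by simp
  have e1 : g (s + δ * (1:ℝ).toNNReal) ω = g (s + δ) ω := by simp
  simp only [e0, e1] at h1
  intro j
  exact (reach_bound hconn h1 j).le

theorem contract_step [NeZero d] {ε η r : ℝ} (hε : 0 < ε)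
    (hρ : 0 < r - 2 * (ε * Real.sqrt d) - η) (hη : 0 ≤ η) {δ s : ℝ≥0} {ω : Ω} {D kr : ℕ}
    (hkr : ∀ u ∈ Kfin d ε (r - 2 * (ε * Real.sqrt d) - η) hε, ∀ j, |u j| ≤ (kr : ℤ))
    (hg : Continuous (fun t => g t ω)) (hZ : ∀ i, Continuous (fun t => Z i t ω))
    (hund : Undetected r X Z g ω)
    (hconn : ¬ Conn (vac (Kfin d ε (r - 2 * (ε * Real.sqrt d) - η) hε)
      (occ ε (nodes X Z s ω))) (cell ε (g s ω)) D)
    (hCH : (nodes X Z s ω, fun i u => incr Z s i u ω) ∈
      CH ε η δ ((D + kr : ℕ) : ℤ) (cell ε (g s ω))) : False := by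
  have hx : ContinuousOn (fun q : ℝ => g (s + δ * q.toNNReal) ω) (Icc 0 1) := by
    have hcomp : Continuous (fun q : ℝ => g (s + δ * q.toNNReal) ω) :=
      hg.comp (by fun_prop)
    exact hcomp.continuousOn
  have e0 : g (s + δ * (0:ℝ).toNNReal) ω = g s ω := by simp
  have hO : ∀ z ∈ occ ε (nodes X Z s ω), z ∈ boxS (cell ε (g s ω)) (D + kr) →
      ∃ i, cell ε (nodes X Z s ω i) = z ∧ ∀ q ∈ Icc (0:ℝ) 1,
      ‖nodes X Z (s + δ * q.toNNReal) ω i - nodes X Z s ω i +
        q • (corner ε z - corner ε (cell ε (g s ω)))‖ ≤ η := by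
    intro z hz hzb
    obtain ⟨i, hi⟩ := exists_isFirst hz
    refine ⟨i, hi.1, fun q hq => ?_⟩
    have hT := hCH z (by simpa using hzb) i hi
    have hc : Continuous (fun u => incr Z s i u ω) := by
      unfold incr
      have := hZ i
      fun_prop
    have h1 := tube_real hc hT hq
    have e : nodes X Z (s + δ * q.toNNReal) ω i - nodes X Z s ω i =
        incr Z s i (δ * q.toNNReal) ω := by
      simp only [nodes, incr]
      abel
    rw [e]
    exact h1
  obtain ⟨q, hq, i, hi⟩ := contraction_lemma hε hρ hη (O := occ ε (nodes X Z s ω))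
    (y := nodes X Z s ω) (Y := fun i q => nodes X Z (s + δ * q.toNNReal) ω i)
    (x := fun q : ℝ => g (s + δ * q.toNNReal) ω) (D := D) (kr := kr) hkr
    (by simpa only [e0] using hconn) (by simpa only [e0] using hO) hx
  exact absurd hi (not_lt.mpr (hund _ i))

theorem inclusion [NeZero d] {ε η r : ℝ} (hε : 0 < ε)
    (hρ : 0 < r - 2 * (ε * Real.sqrt d) - η) (hη : 0 ≤ η) {δ : ℝ≥0} {ω : Ω}
    {D kr R m J Bw : ℕ} {L N0 : ℝ}
    (hkr : ∀ u ∈ Kfin d ε (r - 2 * (ε * Real.sqrt d) - η) hε, ∀ j, |u j| ≤ (kr : ℤ))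
    (hg0 : g 0 ω = 0)
    (hg : Continuous (fun t => g t ω)) (hZ : ∀ i, Continuous (fun t => Z i t ω))
    (hund : Undetected r X Z g ω) (f : ℕ → Ω → E d) (hf : ∀ k : ℕ, g (k * δ) ω = f k ω)
    (hspeed : ∀ k < J * (m + 1), ∀ z ∈ boxS (0 : Fin d → ℤ) (J * (m + 1) * R : ℕ),
      ¬ Conn (vac (Kfin d ε (r - 2 * (ε * Real.sqrt d) - η) hε)
      (occStay ε η δ X Z (k * δ) ω)) z R)
    (hdense : ∀ j < J, ∀ w ∈ boxS (0 : Fin d → ℤ) Bw,
      ManyIn L (nodes X Z ((j * (m + 1) : ℕ) * δ) ω) w N0) :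
    ∀ j < J, ω ∈ stepBad (Kfin d ε (r - 2 * (ε * Real.sqrt d) - η) hε) ε η δ X Z
      ((j * (m + 1) : ℕ) * δ) (m * δ) D (D + kr) (J * (m + 1) * R) (m * R) Bw L N0
      (fun ω => cell ε (f (j * (m + 1)) ω)) (fun ω => cell ε (f (j * (m + 1) + m) ω)) := by
  set K := Kfin d ε (r - 2 * (ε * Real.sqrt d) - η) hε with hK
  set c : ℕ → (Fin d → ℤ) := fun k => cell ε (g (k * δ) ω) with hc
  have hc0 : c 0 = 0 := by
    funext j
    simp [hc, cell, hg0]
  -- the walk
  have hwalk : ∀ k ≤ J * (m + 1), c k ∈ boxS (0 : Fin d → ℤ) (k * R : ℕ) := by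
    intro k
    induction k with
    | zero =>
      intro _ j
      rw [hc0]
      simp
    | succ k ih =>
      intro hk
      have h1 := ih (by omega)
      have hbox : c k ∈ boxS (0 : Fin d → ℤ) (J * (m + 1) * R : ℕ) := by
        intro j
        refine (h1 j).trans ?_
        have : k * R ≤ J * (m + 1) * R := Nat.mul_le_mul_right R (by omega)
        exact_mod_cast this
      have h2 := stay_step hε hg hZ hund (hspeed k (by omega) (c k) hbox)
      have e : ((k + 1 : ℕ) : ℝ≥0) * δ = (k : ℝ≥0) * δ + δ := by push_cast; ring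
      rw [← e] at h2
      intro j
      have h3 := h1 j
      have h4 := h2 j
      have e2 : c (k + 1) j - (0 : Fin d → ℤ) j = (c (k + 1) j - c k j) +
        (c k j - (0 : Fin d → ℤ) j) := by ring
      rw [e2]
      refine (abs_add_le _ _).trans ?_
      have h5 : |c (k + 1) j - c k j| ≤ (R : ℤ) := h4
      push_cast at h3 ⊢
      have h6 : ((k : ℤ) + 1) * R = R + k * R := by ring
      rw [h6]
      exact add_le_add h5 h3
  have hbox : ∀ k ≤ J * (m + 1), c k ∈ boxS (0 : Fin d → ℤ) (J * (m + 1) * R : ℕ) := by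
    intro k hk j
    refine (hwalk k hk j).trans ?_
    have : k * R ≤ J * (m + 1) * R := Nat.mul_le_mul_right R hk
    exact_mod_cast this
  have hwalk2 : ∀ a b : ℕ, a + b ≤ J * (m + 1) → c (a + b) ∈ boxS (c a) (b * R : ℕ) := by
    intro a b
    induction b with
    | zero =>
      intro _ j
      simp
    | succ b ih =>
      intro hb
      have h1 := ih (by omega)
      have h2 := stay_step hε hg hZ hund (hspeed (a + b) (by omega) (c (a + b))
        (hbox _ (by omega)))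
      have e : ((a + (b + 1) : ℕ) : ℝ≥0) * δ = ((a + b : ℕ) : ℝ≥0) * δ + δ := by push_cast; ring
      rw [← e] at h2
      intro j
      have h3 := h1 j
      have h4 := h2 j
      have e2 : c (a + (b + 1)) j - c a j = (c (a + (b + 1)) j - c (a + b) j) +
        (c (a + b) j - c a j) := by ring
      rw [e2]
      refine (abs_add_le _ _).trans ?_
      have h5 : |c (a + (b + 1)) j - c (a + b) j| ≤ (R : ℤ) := h4
      push_cast at h3 ⊢
      have h6 : ((b : ℤ) + 1) * R = R + b * R := by ring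
      rw [h6]
      exact add_le_add h5 h3
  intro j hj
  have hjm : j * (m + 1) + m + 1 ≤ J * (m + 1) := by
    have : (j + 1) * (m + 1) ≤ J * (m + 1) := Nat.mul_le_mul_right _ hj
    linarith [this, (by ring : (j + 1) * (m + 1) = j * (m + 1) + m + 1)]
  have es : ((j * (m + 1) : ℕ) : ℝ≥0) * δ + m * δ = ((j * (m + 1) + m : ℕ) : ℝ≥0) * δ := by
    push_cast; ring
  have ef0 : cell ε (f (j * (m + 1)) ω) = c (j * (m + 1)) := by
    rw [← hf]
  have ef1 : cell ε (f (j * (m + 1) + m) ω) = c (j * (m + 1) + m) := by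
    rw [← hf]
  refine ⟨hdense j hj, ?_, ?_, ?_⟩
  · show cell ε (f (j * (m + 1)) ω) ∈ _
    rw [ef0]
    exact hbox _ (by omega)
  · show cell ε (f (j * (m + 1) + m) ω) ∈ boxS (cell ε (f (j * (m + 1)) ω)) _
    rw [ef0, ef1]
    exact hwalk2 _ _ (by omega)
  · beta_reduce
    rw [ef1, es]
    rintro ⟨h1, h2⟩
    exact contract_step hε hρ hη hkr hg hZ hund h1 h2

end

end Pool.Agent.Helper712_LP
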