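import Pool.Agent.Helper712_LP.Contract

/-!
# The iteration
-/

set_option autoImplicit false
set_option linter.unusedSectionVars false

namespace Pool.Agent.Helper712_LP

open MeasureTheory ProbabilityTheory Set Filter Topology
open scoped ENNReal NNReal

variable {d : ℕ}

section

variable {Ω : Type} [mΩ : MeasurableSpace Ω] {P : Measure Ω} [IsProbabilityMeasure P]
  {lam : ℝ≥0} {X : ℕ → Ω → E d} {Z : ℕ → ℝ≥0 → Ω → E d}

/-- Iterating a conditional bound. -/
theorem iterate_bound (F : ℕ → MeasurableSpace Ω) (hF : Monotone F) (E : ℕ → Set Ω)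
    (hE : ∀ j, MeasurableSet[F (j + 1)] (E j)) {q : ℝ} (hq : 0 ≤ q)
    (hstep : ∀ j, ∀ G : Set Ω, MeasurableSet[F j] G → P.real (G ∩ E j) ≤ q * P.real G) (J : ℕ) :
    P.real (⋂ j ∈ Finset.range J, E j) ≤ q ^ J := by
  have hmeas : ∀ J, MeasurableSet[F J] (⋂ j ∈ Finset.range J, E j) := by
    intro J
    refine @Finset.measurableSet_biInter _ _ (F J) _ _ fun j hj => ?_
    exact hF (Nat.succ_le_of_lt (Finset.mem_range.mp hj)) _ (hE j)
  induction J with
  | zero =>
    simp only [pow_zero]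
    exact measureReal_le_one
  | succ J ih =>
    have e : (⋂ j ∈ Finset.range (J + 1), E j) = (⋂ j ∈ Finset.range J, E j) ∩ E J := by
      ext ω
      simp only [mem_iInter, Finset.mem_range, mem_inter_iff]
      constructor
      · intro h
        exact ⟨fun j hj => h j (by omega), h J (by omega)⟩
      · rintro ⟨h1, h2⟩ j hj
        rcases Nat.lt_succ_iff_lt_or_eq.mp hj with h | h
        · exact h1 j h
        · rw [h]; exact h2
    rw [e, pow_succ']
    exact (hstep J _ (hmeas J)).trans (mul_le_mul_of_nonneg_left ih hq)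

theorem measurableSet_CH_incr {s t δ : ℝ≥0} (hs : s + δ ≤ t) (ε η : ℝ) (n : ℤ)
    (z0 : Fin d → ℤ) :
    MeasurableSet[Fpast X Z t]
      {ω | (nodes X Z s ω, fun i u => incr Z s i u ω) ∈ CH ε η δ n z0} := by
  have hst : s ≤ t := le_self_add.trans hs
  have : {ω | (nodes X Z s ω, fun i u => incr Z s i u ω) ∈ CH ε η δ n z0} =
      ⋂ z : Fin d → ℤ, ⋂ i : ℕ, ({_ω | z ∉ boxS z0 n} ∪
      ({ω | isFirst ε (nodes X Z s ω) z i}ᶜ ∪
        {ω | Tube η δ (corner ε z - corner ε z0) (fun u => incr Z s i u ω)})) := by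
    ext ω
    simp only [CH, mem_ofPred_eq, mem_iInter, mem_union, mem_compl_iff]
    refine forall_congr' fun z => ?_
    constructor
    · intro h i
      by_cases hz : z ∈ boxS z0 n
      · by_cases hi : isFirst ε (nodes X Z s ω) z i
        · exact Or.inr (Or.inr (h hz i hi))
        · exact Or.inr (Or.inl hi)
      · exact Or.inl hz
    · intro h hz i hi
      rcases h i with h | h | h
      · exact absurd hz h
      · exact absurd hi h
      · exact h
  rw [this]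
  refine @MeasurableSet.iInter _ _ (Fpast X Z t) _ _ fun z =>
    @MeasurableSet.iInter _ _ (Fpast X Z t) _ _ fun i =>
    @MeasurableSet.union _ (Fpast X Z t) _ _ (@MeasurableSet.const _ (Fpast X Z t) _)
      (@MeasurableSet.union _ (Fpast X Z t) _ _ (@MeasurableSet.compl _ _ (Fpast X Z t) ?_) ?_)
  · exact measurable_nodes (X := X) (Z := Z) hst (measurableSet_isFirst ε z i)
  · exact measurableSet_tube_incr hs η _ i

theorem measurableSet_stepBad (hmc : S_measConn)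
    {K : Finset (Fin d → ℤ)} {ε η : ℝ} {δ s Δ t : ℝ≥0} {D n Bz Rm Bw : ℕ} {L N0 : ℝ}
    {f0 f1 : Ω → (Fin d → ℤ)} (hf0 : Measurable[Fpast X Z s] f0)
    (hf1 : Measurable[Fpast X Z (s + Δ)] f1) (ht : s + Δ + δ ≤ t) :
    MeasurableSet[Fpast X Z t] (stepBad K ε η δ X Z s Δ D n Bz Rm Bw L N0 f0 f1) := by
  have hst : s ≤ t := (le_self_add.trans le_self_add).trans ht
  have hst' : s + Δ ≤ t := le_self_add.trans ht
  have hf0' : Measurable[Fpast X Z t] f0 := hf0.mono (Fpast_mono hst) le_rfl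
  have hf1' : Measurable[Fpast X Z t] f1 := hf1.mono (Fpast_mono hst') le_rfl
  have hnodes := measurable_nodes (X := X) (Z := Z) hst
  have hnodes' := measurable_nodes (X := X) (Z := Z) hst'
  have h1 : MeasurableSet[Fpast X Z t]
      {ω | ∀ w ∈ boxS (0 : Fin d → ℤ) Bw, ManyIn L (nodes X Z s ω) w N0} := by
    have e : {ω | ∀ w ∈ boxS (0 : Fin d → ℤ) Bw, ManyIn L (nodes X Z s ω) w N0} =
        (fun ω => nodes X Z s ω) ⁻¹' (⋂ w : Fin d → ℤ, ({_y | w ∉ boxS (0 : Fin d → ℤ) Bw} ∪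
          {y | ManyIn L y w N0})) := by
      ext ω
      simp only [mem_ofPred_eq, mem_preimage, mem_iInter, mem_union]
      refine forall_congr' fun w => ?_
      by_cases hw : w ∈ boxS (0 : Fin d → ℤ) Bw <;> simp [hw]
    rw [e]
    refine hnodes ?_
    exact MeasurableSet.iInter fun w => (MeasurableSet.const _).union (measurableSet_manyIn L w N0)
  have h2 : MeasurableSet[Fpast X Z t] {ω | f0 ω ∈ boxS 0 Bz} :=
    hf0' (Set.to_countable (boxS (0 : Fin d → ℤ) Bz)).measurableSet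
  have h3 : MeasurableSet[Fpast X Z t] {ω | f1 ω ∈ boxS (f0 ω) Rm} := by
    have hpair : Measurable[Fpast X Z t] (fun ω => (f0 ω, f1 ω)) :=
      Measurable.prodMk hf0' hf1'
    exact hpair (Set.to_countable {q : (Fin d → ℤ) × (Fin d → ℤ) | q.2 ∈ boxS q.1 Rm}).measurableSet
  have h4 : MeasurableSet[Fpast X Z t]
      {ω | ¬ Conn (vac K (occ ε (nodes X Z (s + Δ) ω))) (f1 ω) D ∧
      (nodes X Z (s + Δ) ω, fun i u => incr Z (s + Δ) i u ω) ∈ CH ε η δ n (f1 ω)} := by
    have e : {ω | ¬ Conn (vac K (occ ε (nodes X Z (s + Δ) ω))) (f1 ω) D ∧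
        (nodes X Z (s + Δ) ω, fun i u => incr Z (s + Δ) i u ω) ∈ CH ε η δ n (f1 ω)} =
        ⋃ z0 : Fin d → ℤ, ({ω | f1 ω = z0} ∩
        ({ω | Conn (vac K (occ ε (nodes X Z (s + Δ) ω))) z0 D}ᶜ ∩
        {ω | (nodes X Z (s + Δ) ω, fun i u => incr Z (s + Δ) i u ω) ∈ CH ε η δ n z0})) := by
      ext ω
      simp only [mem_ofPred_eq, mem_iUnion, mem_inter_iff, mem_compl_iff]
      constructor
      · intro h; exact ⟨_, rfl, h⟩
      · rintro ⟨z0, h0, h⟩
        subst h0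
        exact h
    rw [e]
    refine @MeasurableSet.iUnion _ _ (Fpast X Z t) _ _ fun z0 =>
      @MeasurableSet.inter _ (Fpast X Z t) _ _ (hf1' (measurableSet_singleton z0))
      (@MeasurableSet.inter _ (Fpast X Z t) _ _ (@MeasurableSet.compl _ _ (Fpast X Z t) ?_) ?_)
    · exact hnodes' (measurableSet_conn hmc K ε z0 D)
    · exact measurableSet_CH_incr ht ε η n z0
  exact @MeasurableSet.inter _ (Fpast X Z t) _ _ h1 (@MeasurableSet.inter _ (Fpast X Z t) _ _ h2
    (@MeasurableSet.inter _ (Fpast X Z t) _ _ h3 (@MeasurableSet.compl _ _ (Fpast X Z t) h4)))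

/-- The probability that all the steps fail. -/
theorem all_steps (hN : MobileNodes P lam X Z) (hmc : S_measConn) (hmk : S_markov)
    {K : Finset (Fin d → ℤ)} {ε η : ℝ} {δ Δ : ℝ≥0} {D n Bz Rm Bw : ℕ} {L N0 : ℝ}
    (s : ℕ → ℝ≥0) (hs : ∀ j, s j + Δ + δ ≤ s (j + 1))
    (f0 f1 : ℕ → Ω → (Fin d → ℤ)) (hf0 : ∀ j, Measurable[Fpast X Z (s j)] (f0 j))
    (hf1 : ∀ j, Measurable[Fpast X Z (s j + Δ)] (f1 j)) {b φ : ℝ≥0∞}
    (hdec : ∀ (j : ℕ) (y : ℕ → E d) (z1 : Fin d → ℤ),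
      (∀ w ∈ boxS (0 : Fin d → ℤ) Bw, ManyIn L y w N0) → z1 ∈ boxS 0 (Bz + Rm : ℕ) →
      P {ω | Conn (vac K (occ ε (fun i => y i + incr Z (s j) i Δ ω))) z1 D} ≤ b)
    (hb : ((2 * Rm + 1) ^ d : ℕ) * b ≤ 1 / 2)
    (hφ1 : φ ≤ 1)
    (hcon : ∀ (t : ℝ≥0) (y : ℕ → E d) (z0 : Fin d → ℤ),
      φ ≤ P {ω | (y, fun i u => incr Z t i u ω) ∈ CH ε η δ n z0}) (J : ℕ) :
    P.real (⋂ j ∈ Finset.range J, stepBad K ε η δ X Z (s j) Δ D n Bz Rm Bw L N0 (f0 j) (f1 j)) ≤
      (1 - φ.toReal / 2) ^ J := by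
  have hφt : φ.toReal ≤ 1 := by
    have := ENNReal.toReal_mono ENNReal.one_ne_top hφ1
    simpa using this
  refine iterate_bound (fun j => Fpast X Z (s j)) ?_ _ ?_ (by linarith) ?_ J
  · refine monotone_nat_of_le_succ fun j => Fpast_mono ?_
    exact (le_self_add.trans le_self_add).trans (hs j)
  · intro j
    exact measurableSet_stepBad hmc (hf0 j) (hf1 j) (hs j)
  · intro j G hG
    exact one_step hN hmc hmk (hf0 j) (hf1 j) (hdec j) hb hφ1 (fun y z0 => hcon _ y z0) hG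

end

end Pool.Agent.Helper712_LP
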