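import Pool.Agent.Helper712_LP.Incl

/-!
# The bound at one scale
-/

set_option autoImplicit false
set_option linter.unusedSectionVars false

namespace Pool.Agent.Helper712_LP

open MeasureTheory ProbabilityTheory Set Filter Topology
open scoped ENNReal NNReal

variable {d : ℕ}

section

variable {Ω : Type} [mΩ : MeasurableSpace Ω] {P : Measure Ω} [IsProbabilityMeasure P]
  {lam : ℝ≥0} {X : ℕ → Ω → E d} {Z : ℕ → ℝ≥0 → Ω → E d} {g : ℝ≥0 → Ω → E d}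

theorem continuous_paths (hM : Motions P Z) : ∀ᵐ ω ∂P, ∀ i, Continuous (fun t => Z i t ω) := by
  have h1 : ∀ᵐ ω ∂P, ∀ i : ℕ, ∀ j : Fin d, Continuous (fun t => Z i t ω j) := by
    rw [ae_all_iff]
    intro i
    rw [ae_all_iff]
    intro j
    exact (hM.brownian i j).cont
  filter_upwards [h1] with ω hω i
  have h2 : Continuous (fun t => (WithLp.ofLp (Z i t ω) : Fin d → ℝ)) :=
    continuous_pi fun j => hω i j
  exact (PiLp.continuous_toLp 2 (fun _ : Fin d => ℝ)).comp h2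

theorem key_bound [NeZero d] (hN : MobileNodes P lam X Z) (hT : IsTarget P X Z g)
    (hmc : S_measConn) (hmk : S_markov) {closed : Bool}
    {ε η r : ℝ} (hε : 0 < ε)
    (hρ : 0 < r - 2 * (ε * Real.sqrt d) - η) (hη : 0 ≤ η) {δ : ℝ≥0}
    {D kr R m J Bw : ℕ} {L N0 : ℝ}
    (hkr : ∀ u ∈ Kfin d ε (r - 2 * (ε * Real.sqrt d) - η) hε, ∀ j, |u j| ≤ (kr : ℤ))
    {t1 t2 b φ : ℝ≥0∞}
    (h1 : ∀ (s : ℝ≥0) (z : Fin d → ℤ),
      P {ω | Conn (vac (Kfin d ε (r - 2 * (ε * Real.sqrt d) - η) hε)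
        (occStay ε η δ X Z s ω)) z R} ≤ t1)
    (h2 : ∀ (s : ℝ≥0) (w : Fin d → ℤ), P {ω | ¬ ManyIn L (nodes X Z s ω) w N0} ≤ t2)
    (hdec : ∀ (s : ℝ≥0) (y : ℕ → E d) (z1 : Fin d → ℤ),
      (∀ w ∈ boxS (0 : Fin d → ℤ) Bw, ManyIn L y w N0) →
      z1 ∈ boxS 0 (J * (m + 1) * R + m * R : ℕ) →
      P {ω | Conn (vac (Kfin d ε (r - 2 * (ε * Real.sqrt d) - η) hε)
        (occ ε (fun i => y i + incr Z s i (m * δ) ω))) z1 D} ≤ b)
    (hb : ((2 * (m * R) + 1) ^ d : ℕ) * b ≤ 1 / 2)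
    (hφ1 : φ ≤ 1)
    (hcon : ∀ (t : ℝ≥0) (y : ℕ → E d) (z0 : Fin d → ℤ),
      φ ≤ P {ω | (y, fun i u => incr Z t i u ω) ∈ CH ε η δ ((D + kr : ℕ) : ℤ) z0}) :
    P {ω | detectionTime closed r X Z g ω = ∞} ≤
      ((J * (m + 1)) * (2 * (J * (m + 1) * R) + 1) ^ d : ℕ) * t1 +
      (J * (2 * Bw + 1) ^ d : ℕ) * t2 + ENNReal.ofReal ((1 - φ.toReal / 2) ^ J) := by
  have hM := hN.motions
  choose f hfm hfe using fun k : ℕ => hT.nonanticipating (k * δ)
  set K := Kfin d ε (r - 2 * (ε * Real.sqrt d) - η) hε with hK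
  obtain ⟨S1, hS1card, hS1⟩ := ncard_box (0 : Fin d → ℤ) (J * (m + 1) * R)
  obtain ⟨S2, hS2card, hS2⟩ := ncard_box (0 : Fin d → ℤ) Bw
  set U1 : Set Ω := ⋃ k ∈ Finset.range (J * (m + 1)), ⋃ z ∈ S1,
    {ω | Conn (vac K (occStay ε η δ X Z (k * δ) ω)) z R} with hU1
  set U2 : Set Ω := ⋃ j ∈ Finset.range J, ⋃ w ∈ S2,
    {ω | ¬ ManyIn L (nodes X Z ((j * (m + 1) : ℕ) * δ) ω) w N0} with hU2
  set U3 : Set Ω := ⋂ j ∈ Finset.range J, stepBad K ε η δ X Z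
      ((j * (m + 1) : ℕ) * δ) (m * δ) D (D + kr) (J * (m + 1) * R) (m * R) Bw L N0
      (fun ω => cell ε (f (j * (m + 1)) ω)) (fun ω => cell ε (f (j * (m + 1) + m) ω)) with hU3
  have hsub : {ω | detectionTime closed r X Z g ω = ∞} ≤ᵐ[P] ((U1 ∪ U2) ∪ U3 : Set Ω) := by
    have hfe' : ∀ᵐ ω ∂P, ∀ k : ℕ, g (k * δ) ω = f k ω := ae_all_iff.mpr hfe
    filter_upwards [hT.start, hT.cont, continuous_paths hM, hfe'] with ω hω0 hωc hωZ hωf hωT
    by_contra hcon2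
    have hcon3 : ω ∉ U1 ∧ ω ∉ U2 ∧ ω ∉ U3 := by
      refine ⟨fun h => hcon2 (Or.inl (Or.inl h)), fun h => hcon2 (Or.inl (Or.inr h)),
        fun h => hcon2 (Or.inr h)⟩
    obtain ⟨c1, c2, c3⟩ := hcon3
    apply c3
    rw [hU3]
    refine mem_iInter₂.mpr fun j hj => ?_
    refine inclusion hε hρ hη hkr hω0 hωc hωZ (undetected_of_top hωT) f hωf ?_ ?_ j
      (Finset.mem_range.mp hj)
    · intro k hk z hz hc
      apply c1
      exact mem_iUnion₂.mpr ⟨k, Finset.mem_range.mpr hk, mem_iUnion₂.mpr ⟨z, (hS1 z).mpr hz, hc⟩⟩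
    · intro j hj w hw
      by_contra hc
      apply c2
      exact mem_iUnion₂.mpr ⟨j, Finset.mem_range.mpr hj, mem_iUnion₂.mpr ⟨w, (hS2 w).mpr hw, hc⟩⟩
  have hb1 : P U1 ≤ ((J * (m + 1)) * (2 * (J * (m + 1) * R) + 1) ^ d : ℕ) * t1 := by
    calc P U1 ≤ ∑ k ∈ Finset.range (J * (m + 1)), P (⋃ z ∈ S1,
          {ω | Conn (vac K (occStay ε η δ X Z (k * δ) ω)) z R}) := measure_biUnion_finset_le _ _
      _ ≤ ∑ k ∈ Finset.range (J * (m + 1)), ∑ z ∈ S1,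
          P {ω | Conn (vac K (occStay ε η δ X Z (k * δ) ω)) z R} :=
          Finset.sum_le_sum fun k _ => measure_biUnion_finset_le _ _
      _ ≤ ∑ _k ∈ Finset.range (J * (m + 1)), ∑ _z ∈ S1, t1 :=
          Finset.sum_le_sum fun k _ => Finset.sum_le_sum fun z _ => h1 _ _
      _ = _ := by
          rw [Finset.sum_const, Finset.sum_const, hS1card, Finset.card_range, nsmul_eq_mul,
            nsmul_eq_mul, ← mul_assoc]
          norm_cast
  have hb2 : P U2 ≤ (J * (2 * Bw + 1) ^ d : ℕ) * t2 := by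
    calc P U2 ≤ ∑ j ∈ Finset.range J, P (⋃ w ∈ S2,
          {ω | ¬ ManyIn L (nodes X Z ((j * (m + 1) : ℕ) * δ) ω) w N0}) :=
          measure_biUnion_finset_le _ _
      _ ≤ ∑ j ∈ Finset.range J, ∑ w ∈ S2,
          P {ω | ¬ ManyIn L (nodes X Z ((j * (m + 1) : ℕ) * δ) ω) w N0} :=
          Finset.sum_le_sum fun k _ => measure_biUnion_finset_le _ _
      _ ≤ ∑ _j ∈ Finset.range J, ∑ _w ∈ S2, t2 :=
          Finset.sum_le_sum fun k _ => Finset.sum_le_sum fun z _ => h2 _ _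
      _ = _ := by
          rw [Finset.sum_const, Finset.sum_const, hS2card, Finset.card_range, nsmul_eq_mul,
            nsmul_eq_mul, ← mul_assoc]
          norm_cast
  have hb3 : P U3 ≤ ENNReal.ofReal ((1 - φ.toReal / 2) ^ J) := by
    have es : ∀ j : ℕ, ((j * (m + 1) : ℕ) : ℝ≥0) * δ + m * δ =
        ((j * (m + 1) + m : ℕ) : ℝ≥0) * δ := by
      intro j; push_cast; ring
    have hall := all_steps hN hmc hmk (K := K) (ε := ε) (η := η) (δ := δ) (Δ := m * δ) (D := D)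
      (n := D + kr) (Bz := J * (m + 1) * R) (Rm := m * R) (Bw := Bw) (L := L) (N0 := N0)
      (fun j => ((j * (m + 1) : ℕ) : ℝ≥0) * δ) ?_
      (fun j ω => cell ε (f (j * (m + 1)) ω)) (fun j ω => cell ε (f (j * (m + 1) + m) ω))
      ?_ ?_ (b := b) (φ := φ) ?_ hb hφ1 hcon J
    · rw [← ENNReal.ofReal_toReal (measure_ne_top P U3)]
      exact ENNReal.ofReal_le_ofReal hall
    · intro j
      refine le_of_eq ?_
      push_cast
      ring
    · intro j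
      exact (measurable_cell ε).comp ((hfm (j * (m + 1))).mono (past_le_Fpast _) le_rfl)
    · intro j
      rw [es j]
      exact (measurable_cell ε).comp ((hfm (j * (m + 1) + m)).mono (past_le_Fpast _) le_rfl)
    · intro j y z1 hw hz
      exact hdec _ y z1 hw hz
  calc P {ω | detectionTime closed r X Z g ω = ∞} ≤ P ((U1 ∪ U2) ∪ U3) := measure_mono_ae hsub
    _ ≤ P (U1 ∪ U2) + P U3 := measure_union_le _ _
    _ ≤ (P U1 + P U2) + P U3 := add_le_add (measure_union_le _ _) le_rfl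
    _ ≤ _ := add_le_add (add_le_add hb1 hb2) hb3

end

end Pool.Agent.Helper712_LP
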