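import Pool.Agent.Helper712_LP.Key
import Pool.Agent.Helper712_LP.Asym

/-!
# Detection of non-anticipating targets, given the exponential decay of `theta`
-/

set_option autoImplicit false
set_option linter.unusedSectionVars false

namespace Pool.Agent.Helper712_LP

open MeasureTheory ProbabilityTheory Set Filter Topology
open scoped ENNReal NNReal

variable {d : ℕ}

section

variable {Ω : Type} [mΩ : MeasurableSpace Ω] {P : Measure Ω} [IsProbabilityMeasure P]
  {lam : ℝ≥0} {X : ℕ → Ω → E d} {Z : ℕ → ℝ≥0 → Ω → E d} {g : ℝ≥0 → Ω → E d}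

theorem theta_anti {K : Finset (Fin d → ℤ)} (hd : 1 ≤ d) (hbasic : S_basic) (n : ℕ) {p q : ℝ}
    (hp : 0 ≤ p) (hpq : p ≤ q) (hq : q ≤ 1) : theta d K n p ≤ theta d K n q :=
  (hbasic d hd K).2.2.2 n ⟨hp, hpq.trans hq⟩ ⟨hp.trans hpq, hq⟩ hpq

theorem measurableSet_mem_occStay (hN : MobileNodes P lam X Z) (ε η : ℝ) (δ s : ℝ≥0)
    (z : Fin d → ℤ) : MeasurableSet {ω | z ∈ occStay ε η δ X Z s ω} := by
  have : {ω | z ∈ occStay ε η δ X Z s ω} = ⋃ i : ℕ, ({ω | cell ε (nodes X Z s ω i) = z} ∩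
      {ω | Tube η δ 0 (fun u => incr Z s i u ω)}) := by
    ext ω
    simp only [occStay, mem_ofPred_eq, mem_iUnion, mem_inter_iff]
  rw [this]
  refine MeasurableSet.iUnion fun i => MeasurableSet.inter ?_ ?_
  · have h1 : Measurable (fun ω => nodes X Z s ω i) :=
      (hN.points.measurable i).add (hN.measurable i s)
    exact h1 (measurableSet_cell ε z)
  · exact Fpast_le hN _ _ (measurableSet_tube_incr (X := X) (le_refl (s + δ)) η 0 i)

/-- The speed bound. -/
theorem speed_bound (hd : 1 ≤ d) (hlaw : S_law) (hbasic : S_basic) (hstay : S_stay)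
    (hN : MobileNodes P lam X Z) {K : Finset (Fin d → ℤ)} {ε η : ℝ} {δ : ℝ≥0} (hε : 0 < ε)
    {l2 : ℝ} (hl2 : 0 ≤ l2)
    (hδ : l2 ≤ lam * (P {ω | Tube η δ 0 (fun u => Z 0 u ω)}).toReal) (s : ℝ≥0)
    (z : Fin d → ℤ) (R : ℕ) :
    P {ω | Conn (vac K (occStay ε η δ X Z s ω)) z R} ≤
      ENNReal.ofReal (theta d K R (Real.exp (-(l2 * ε ^ d)))) := by
  have h1 := hlaw d Ω P (fun ω => occStay ε η δ X Z s ω)
    (Real.exp (-(lam * (P {ω | Tube η δ 0 (fun u => Z 0 u ω)}).toReal * ε ^ d)))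
    (Real.exp_pos _).le (by
      rw [Real.exp_le_one_iff]
      have : 0 ≤ lam * (P {ω | Tube η δ 0 (fun u => Z 0 u ω)}).toReal * ε ^ d := by positivity
      linarith) (fun z => measurableSet_mem_occStay hN ε η δ s z)
    (fun F => hstay d Ω P lam X Z hN ε η δ s hε F) K z R
  rw [h1]
  refine ENNReal.ofReal_le_ofReal (theta_anti hd hbasic R (Real.exp_pos _).le ?_ ?_)
  · apply Real.exp_le_exp.mpr
    have h2 : 0 ≤ ε ^ d := by positivity
    have := mul_le_mul_of_nonneg_right hδ h2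
    linarith
  · rw [Real.exp_le_one_iff]
    have : 0 ≤ l2 * ε ^ d := by positivity
    linarith

theorem exists_rate {l3 lam : ℝ} (hl3 : 0 < l3) (h : l3 < lam) :
    ∃ a c5 : ℝ, 0 ≤ a ∧ 0 < c5 ∧ a * l3 - lam * (1 - Real.exp (-a)) ≤ -c5 := by
  have hlam : 0 < lam := hl3.trans h
  set a : ℝ := (lam / l3 - 1) / 2 with ha
  have hr : 1 < lam / l3 := by rwa [one_lt_div hl3]
  have ha0 : 0 < a := by rw [ha]; linarith
  have h1 : Real.exp (-a) ≤ 1 / (1 + a) := by
    rw [Real.exp_neg, ← one_div]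
    have := Real.add_one_le_exp a
    exact one_div_le_one_div_of_le (by linarith) (by linarith)
  have h2 : 1 + a < lam / l3 := by rw [ha]; linarith
  have h3 : l3 < lam / (1 + a) := by
    rw [lt_div_iff₀ (by linarith)]
    rw [lt_div_iff₀ hl3] at h2
    linarith
  refine ⟨a, a * (lam / (1 + a) - l3), ha0.le, mul_pos ha0 (by linarith), ?_⟩
  have h4 : lam * (1 - Real.exp (-a)) ≥ lam * (1 - 1 / (1 + a)) :=
    mul_le_mul_of_nonneg_left (by linarith) hlam.le
  have h5 : lam * (1 - 1 / (1 + a)) = a * (lam / (1 + a)) := by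
    have : (1 + a) ≠ 0 := by linarith
    field_simp
    ring
  nlinarith

theorem main_detect [NeZero d] (hmc : S_measConn) (hlaw : S_law) (hbasic : S_basic)
    (hstay : S_stay) (hcount : S_count) (hshift : S_shift) (hpl : S_pathLaw)
    (hpi : S_pathIndep) (hmk : S_markov) (hshort : S_short) (htube : S_tube)
    (hdecouple : S_decouple)
    (hN : MobileNodes P lam X Z) (hT : IsTarget P X Z g) {closed : Bool}
    {ε η r : ℝ} (hε : 0 < ε)
    (hρ : 0 < r - 2 * (ε * Real.sqrt d) - η) (hη : 0 < η) {l2 l3 : ℝ} (hl2 : 0 < l2)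
    (hl23 : l2 < l3) (hl3 : l3 < lam)
    (hθ : ∃ C k : ℝ, 0 < k ∧ ∀ n : ℕ,
      theta d (Kfin d ε (r - 2 * (ε * Real.sqrt d) - η) hε) n (Real.exp (-(l2 * ε ^ d))) ≤
        C * Real.exp (-k * n)) :
    ∀ᵐ ω ∂P, detectionTime closed r X Z g ω < ∞ := by
  have hd : 1 ≤ d := NeZero.one_le
  have hM := hN.motions
  set K := Kfin d ε (r - 2 * (ε * Real.sqrt d) - η) hε with hK
  have hlam : (0 : ℝ) < lam := by linarith
  -- the time step
  obtain ⟨δ, hδ, hδP⟩ := hshort d Ω P Z hM (η / 4) (by linarith) (max (l2 / lam) (1 / 2)) (by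
    rw [max_lt_iff]
    constructor
    · rw [div_lt_one hlam]; linarith
    · norm_num)
  have htubemono : {ω | Tube (η / 4) δ 0 (fun u => Z 0 u ω)} ⊆
      {ω | Tube η δ 0 (fun u => Z 0 u ω)} := by
    intro ω hω q hq
    exact (hω q hq).trans (by linarith)
  have hpos : 0 < P {ω | Tube (η / 4) δ 0 (fun u => Z 0 u ω)} := by
    rw [pos_iff_ne_zero]
    intro h0
    rw [h0, ENNReal.toReal_zero] at hδP
    have := (le_max_right (l2 / (lam : ℝ)) (1 / 2)).trans hδP
    norm_num at this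
  have hδl2 : l2 ≤ lam * (P {ω | Tube η δ 0 (fun u => Z 0 u ω)}).toReal := by
    have h1 := (le_max_left (l2 / (lam : ℝ)) (1 / 2)).trans hδP
    have h2 : (P {ω | Tube (η / 4) δ 0 (fun u => Z 0 u ω)}).toReal ≤
        (P {ω | Tube η δ 0 (fun u => Z 0 u ω)}).toReal :=
      ENNReal.toReal_mono (measure_ne_top P _) (measure_mono htubemono)
    have h3 := h1.trans h2
    rw [div_le_iff₀ hlam] at h3
    linarith
  -- the constants
  obtain ⟨c, C, hc, hc1, hC, hcon⟩ := contract_prob hshift hpl hpi htube hM hε hη hδ hpos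
  obtain ⟨A, c6, Cb, hc6, hCb, hdec⟩ := hdecouple d hd K ε l2 l3 hε hl2 hl23
  obtain ⟨C0', k0, hk0, hθ⟩ := hθ
  set C0 : ℝ := max C0' 0 with hC0
  have hC00 : 0 ≤ C0 := le_max_right _ _
  have hθ' : ∀ n : ℕ, theta d K n (Real.exp (-(l2 * ε ^ d))) ≤ C0 * Real.exp (-k0 * n) := by
    intro n
    refine (hθ n).trans ?_
    exact mul_le_mul_of_nonneg_right (le_max_left _ _) (Real.exp_pos _).le
  obtain ⟨a, c5, ha, hc5, hac5⟩ := exists_rate (hl2.trans hl23) hl3
  -- the range of `K`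
  obtain ⟨kr, hkr⟩ : ∃ kr : ℕ, ∀ u ∈ K, ∀ j, |u j| ≤ (kr : ℤ) := by
    refine ⟨∑ u ∈ K, ∑ j, (u j).natAbs, fun u hu j => ?_⟩
    have h1 : (u j).natAbs ≤ ∑ j, (u j).natAbs :=
      Finset.single_le_sum (f := fun j => (u j).natAbs) (fun _ _ => Nat.zero_le _)
        (Finset.mem_univ j)
    have h2 : ∑ j, (u j).natAbs ≤ ∑ u ∈ K, ∑ j, (u j).natAbs :=
      Finset.single_le_sum (f := fun u => ∑ j, (u j).natAbs) (fun _ _ => Nat.zero_le _) hu
    rw [Int.abs_eq_natAbs]
    exact_mod_cast h1.trans h2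
  obtain ⟨e, he, hev⟩ := scales d hd c6 ε δ k0 C0 Cb c5 C c A kr hc6 hε (by exact_mod_cast hδ)
    hk0 hC00 hc5 hC hc hc1
  -- the probability is bounded by `e D`
  have hfin : ∀ᶠ D : ℕ in atTop, P {ω | detectionTime closed r X Z g ω = ∞} ≤
      ENNReal.ofReal (e D) := by
    filter_upwards [hev] with D hD
    obtain ⟨m, R, J, ℓ, hℓ1, hℓkr, hm1, hm2, hb, hbound⟩ := hD
    have hL : 0 < ε * ℓ := by
      have : (1 : ℝ) ≤ ℓ := by exact_mod_cast hℓ1
      positivity
    set x : ℝ := (c * Real.exp (-C * ((D + kr : ℕ) : ℝ) ^ 2)) ^ ((2 * (D + kr) + 1) ^ d) with hx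
    have hx0 : 0 ≤ x := by positivity
    have hx1 : x ≤ 1 := by
      rw [hx]
      refine pow_le_one₀ (by positivity) ?_
      have : Real.exp (-C * ((D + kr : ℕ) : ℝ) ^ 2) ≤ 1 := by
        rw [Real.exp_le_one_iff]
        have : 0 ≤ C * ((D + kr : ℕ) : ℝ) ^ 2 := by positivity
        linarith
      calc c * Real.exp (-C * ((D + kr : ℕ) : ℝ) ^ 2) ≤ 1 * 1 :=
            mul_le_mul hc1 this (Real.exp_pos _).le zero_le_one
        _ = 1 := one_mul 1
    have hb0 : 0 ≤ Cb * (C0 * Real.exp (-k0 * D)) := by positivity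
    have key := key_bound hN hT hmc hmk (closed := closed) hε hρ hη.le (δ := δ) (D := D)
      (kr := kr) (R := R) (m := m) (J := J) (Bw := J * (m + 1) * R + m * R + A) (L := ε * ℓ)
      (N0 := l3 * (ε * ℓ) ^ d) hkr
      (t1 := ENNReal.ofReal (C0 * Real.exp (-k0 * R)))
      (t2 := ENNReal.ofReal (Real.exp (-(c5 * (ε * ℓ) ^ d))))
      (b := ENNReal.ofReal (Cb * (C0 * Real.exp (-k0 * D))))
      (φ := ENNReal.ofReal x) ?_ ?_ ?_ ?_ ?_ ?_
    · refine key.trans ?_
      rw [ENNReal.toReal_ofReal hx0, ← ENNReal.ofReal_natCast, ← ENNReal.ofReal_natCast,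
        ← ENNReal.ofReal_mul (Nat.cast_nonneg _), ← ENNReal.ofReal_mul (Nat.cast_nonneg _),
        ← ENNReal.ofReal_add (by positivity) (by positivity),
        ← ENNReal.ofReal_add (by positivity) (pow_nonneg (by linarith) _)]
      exact ENNReal.ofReal_le_ofReal hbound
    · intro s z
      refine (speed_bound hd hlaw hbasic hstay hN hε hl2.le hδl2 s z R).trans ?_
      exact ENNReal.ofReal_le_ofReal (hθ' R)
    · intro s w
      refine (hcount d Ω P lam X Z hN (ε * ℓ) a (l3 * (ε * ℓ) ^ d) s w hL ha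
        (mul_nonneg (by linarith) (by positivity))).trans ?_
      refine ENNReal.ofReal_le_ofReal (Real.exp_le_exp.mpr ?_)
      have h1 : 0 ≤ (ε * (ℓ : ℝ)) ^ d := by positivity
      have h2 := mul_le_mul_of_nonneg_right hac5 h1
      linarith
    · intro s y z1 hw hz1
      have hM' := hshift d Ω P Z hM s
      have h1 := hdec Ω P (fun i => incr Z s i (m * δ)) (m * δ) ℓ D
        (fun i => hM'.measurable i _) ?_ ?_ hℓ1 (by push_cast; exact hm1)
        (by push_cast; exact hm2) ?_ y z1 ?_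
      · refine h1.trans (ENNReal.ofReal_le_ofReal ?_)
        exact mul_le_mul_of_nonneg_left (hθ' D) hCb.le
      · intro i j
        exact ((hM'.brownian i j).toIsPreBrownianReal.hasLaw_eval (m * δ)).map_eq
      · exact hM'.indep.comp (fun _ w => w (m * δ)) (fun _ => measurable_pi_apply _)
      · intro k hk j
        have := hkr k hk j
        have h3 : (kr : ℤ) + D ≤ ℓ := by exact_mod_cast hℓkr
        linarith
      · intro w hwz
        refine hw w fun j => ?_
        have h2 := hwz j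
        have h3 := hz1 j
        simp only [Pi.zero_apply, sub_zero] at h3 ⊢
        have hℓz : (1 : ℤ) ≤ ℓ := by exact_mod_cast hℓ1
        have h4 : (ℓ : ℤ) * |w j| ≤ A * ℓ + |z1 j| := by
          have h5 : (ℓ : ℤ) * w j = ((ℓ : ℤ) * w j - z1 j) + z1 j := by ring
          have h6 : |(ℓ : ℤ) * w j| = ℓ * |w j| := by
            rw [abs_mul, abs_of_nonneg (by omega)]
          rw [← h6, h5]
          exact (abs_add_le _ _).trans (add_le_add h2 le_rfl)
        have h7 : |z1 j| ≤ |z1 j| * ℓ := le_mul_of_one_le_right (abs_nonneg _) hℓz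
        have h8 : (ℓ : ℤ) * |w j| ≤ (A + |z1 j|) * ℓ := by linarith
        have h9 : |w j| ≤ A + |z1 j| := by
          have : (ℓ : ℤ) * |w j| ≤ ℓ * (A + |z1 j|) := by linarith
          exact le_of_mul_le_mul_left this (by omega)
        push_cast at h3 ⊢
        linarith
    · rw [← ENNReal.ofReal_natCast, ← ENNReal.ofReal_mul (Nat.cast_nonneg _)]
      refine (ENNReal.ofReal_le_ofReal hb).trans ?_
      rw [ENNReal.ofReal_div_of_pos (by norm_num)]
      simp
    · calc ENNReal.ofReal x ≤ ENNReal.ofReal 1 := ENNReal.ofReal_le_ofReal hx1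
        _ = 1 := ENNReal.ofReal_one
    · intro t y z0
      exact hcon t (D + kr) y z0
  -- conclusion
  have hlim : Tendsto (fun D : ℕ => ENNReal.ofReal (e D)) atTop (𝓝 0) := by
    have := ENNReal.tendsto_ofReal he
    rwa [ENNReal.ofReal_zero] at this
  have h0 : P {ω | detectionTime closed r X Z g ω = ∞} ≤ 0 := ge_of_tendsto hlim hfin
  rw [ae_iff]
  have e1 : {ω | ¬ detectionTime closed r X Z g ω < ∞} =
      {ω | detectionTime closed r X Z g ω = ∞} := by
    ext ω
    simp only [mem_ofPred_eq, not_lt, top_le_iff]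
  rw [e1]
  exact nonpos_iff_eq_zero.mp h0

end

end Pool.Agent.Helper712_LP
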