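import Pool.Agent.Helper712_LP.Freeze

/-!
# Measurability
-/

set_option autoImplicit false
set_option linter.unusedSectionVars false

namespace Pool.Agent.Helper712_LP

open MeasureTheory ProbabilityTheory Set Filter Topology
open scoped ENNReal NNReal

variable {d : ℕ}

theorem measurable_coord (j : Fin d) : Measurable (fun x : E d => x j) :=
  (EuclideanSpace.proj j : E d →L[ℝ] ℝ).continuous.measurable

theorem measurable_cell (ε : ℝ) : Measurable (cell (d := d) ε) := by
  refine measurable_pi_iff.mpr fun j => ?_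
  unfold cell
  exact ((measurable_coord j).div_const ε).floor

theorem measurableSet_cell (ε : ℝ) (z : Fin d → ℤ) : MeasurableSet {x : E d | cell ε x = z} :=
  measurable_cell ε (measurableSet_singleton z)

theorem measurableSet_occ (ε : ℝ) (z : Fin d → ℤ) :
    MeasurableSet {y : ℕ → E d | z ∈ occ ε y} := by
  have : {y : ℕ → E d | z ∈ occ ε y} = ⋃ i : ℕ, {y | cell ε (y i) = z} := by
    ext y; simp [occ]
  rw [this]
  exact MeasurableSet.iUnion fun i =>
    (measurableSet_cell ε z).preimage (measurable_pi_apply (X := fun _ : ℕ => E d) i)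

theorem measurableSet_manyIn (L : ℝ) (w : Fin d → ℤ) (N : ℝ) :
    MeasurableSet {y : ℕ → E d | ManyIn L y w N} := by
  have : {y : ℕ → E d | ManyIn L y w N} =
      ⋃ I : Finset ℕ, ({y | ∀ i ∈ I, cell L (y i) = w} ∩ {_y | N ≤ (I.card : ℝ)}) := by
    ext y
    simp only [ManyIn, mem_ofPred_eq, mem_iUnion, mem_inter_iff]
  rw [this]
  refine MeasurableSet.iUnion fun I => MeasurableSet.inter ?_ (MeasurableSet.const _)
  have : {y : ℕ → E d | ∀ i ∈ I, cell L (y i) = w} = ⋂ i ∈ I, {y | cell L (y i) = w} := by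
    ext y; simp
  rw [this]
  exact Finset.measurableSet_biInter I fun i _ =>
    (measurableSet_cell L w).preimage (measurable_pi_apply (X := fun _ : ℕ => E d) i)

theorem measurableSet_tube (η : ℝ) (δ : ℝ≥0) (v : E d) :
    MeasurableSet {w : ℝ≥0 → E d | Tube η δ v w} := by
  have : {w : ℝ≥0 → E d | Tube η δ v w} = ⋂ q : ℚ≥0, ({_w | ¬ q ≤ 1} ∪
      {w | ‖w (δ * (q : ℝ≥0)) + ((q : ℝ≥0) : ℝ) • v‖ ≤ η}) := by
    ext w
    simp only [Tube, mem_ofPred_eq, mem_iInter, mem_union]
    refine forall_congr' fun q => ?_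
    tauto
  rw [this]
  refine MeasurableSet.iInter fun q => MeasurableSet.union (MeasurableSet.const _) ?_
  exact measurableSet_le (((measurable_pi_apply _).add_const _).norm) measurable_const

theorem measurableSet_conn (hmc : S_measConn) (K : Finset (Fin d → ℤ)) (ε : ℝ) (z : Fin d → ℤ)
    (n : ℕ) : MeasurableSet {y : ℕ → E d | Conn (vac K (occ ε y)) z n} :=
  hmc d (ℕ → E d) _ (fun y => occ ε y) (fun z => measurableSet_occ ε z) K z n

section

variable {Ω : Type} [mΩ : MeasurableSpace Ω] {P : Measure Ω} {lam : ℝ≥0}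
  {X : ℕ → Ω → E d} {Z : ℕ → ℝ≥0 → Ω → E d}

theorem Fpast_le (h : MobileNodes P lam X Z) (s : ℝ≥0) : Fpast X Z s ≤ mΩ := by
  refine sup_le (iSup_le fun i => (h.points.measurable i).comap_le) ?_
  exact iSup_le fun i => iSup_le fun u => iSup_le fun _ => (h.measurable i u).comap_le

theorem Fpast_mono {s t : ℝ≥0} (hst : s ≤ t) : Fpast X Z s ≤ Fpast X Z t := by
  refine sup_le_sup le_rfl ?_
  refine iSup_mono fun i => iSup_mono fun u => ?_
  exact iSup_le fun hu => le_iSup_of_le (hu.trans hst) le_rfl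

theorem measurable_X (s : ℝ≥0) (i : ℕ) : Measurable[Fpast X Z s] (X i) := by
  rw [measurable_iff_comap_le]
  exact le_sup_of_le_left (le_iSup_of_le i le_rfl)

theorem measurable_Z {s u : ℝ≥0} (hu : u ≤ s) (i : ℕ) : Measurable[Fpast X Z s] (Z i u) := by
  rw [measurable_iff_comap_le]
  exact le_sup_of_le_right (le_iSup_of_le i (le_iSup_of_le u (le_iSup_of_le hu le_rfl)))

theorem measurable_nodes {s u : ℝ≥0} (hu : u ≤ s) :
    Measurable[Fpast X Z s] (fun ω => nodes X Z u ω) := by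
  refine @measurable_pi_lambda _ _ _ (Fpast X Z s) _ _ fun i => ?_
  show Measurable[Fpast X Z s] (X i + Z i u)
  exact @Measurable.add _ _ _ _ (Fpast X Z s) _ _ _ (measurable_X s i) (measurable_Z hu i)

theorem measurable_count_nodes {s u : ℝ≥0} (hu : u ≤ s) {A : Set (E d)} (hA : MeasurableSet A) :
    Measurable[Fpast X Z s] (count (fun i ω => nodes X Z u ω i) A) := by
  have h1 : Measurable (fun y : ℕ → E d => ∑' i, A.indicator (fun _ => (1 : ℝ≥0∞)) (y i)) := by
    refine Measurable.tsum fun i => ?_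
    exact (measurable_const.indicator hA).comp (measurable_pi_apply i)
  exact @Measurable.comp _ _ _ (Fpast X Z s) _ _ _ _ h1 (measurable_nodes (X := X) (Z := Z) hu)

theorem past_le_Fpast (s : ℝ≥0) : past X Z s ≤ Fpast X Z s := by
  refine iSup_le fun u => iSup_le fun hu => iSup_le fun A => iSup_le fun hA => ?_
  rw [← measurable_iff_comap_le]
  exact measurable_count_nodes hu.le hA

theorem measurable_incr (h : MobileNodes P lam X Z) (s : ℝ≥0) :
    Measurable (fun ω (i : ℕ) (u : ℝ≥0) => incr Z s i u ω) := by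
  refine measurable_pi_iff.mpr fun i => measurable_pi_iff.mpr fun u => ?_
  exact (h.measurable i _).sub (h.measurable i _)

theorem measurableSet_tube_incr {s t δ : ℝ≥0} (hs : s + δ ≤ t) (η : ℝ) (v : E d) (i : ℕ) :
    MeasurableSet[Fpast X Z t] {ω | Tube η δ v (fun u => incr Z s i u ω)} := by
  have e : {ω | Tube η δ v (fun u => incr Z s i u ω)} = ⋂ q : ℚ≥0, ({_ω | ¬ q ≤ 1} ∪
      {ω | q ≤ 1 ∧ ‖incr Z s i (δ * (q : ℝ≥0)) ω + ((q : ℝ≥0) : ℝ) • v‖ ≤ η}) := by
    ext ω
    simp only [Tube, mem_ofPred_eq, mem_iInter, mem_union]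
    refine forall_congr' fun q => ?_
    tauto
  rw [e]
  refine @MeasurableSet.iInter _ _ (Fpast X Z t) _ _ fun q =>
    @MeasurableSet.union _ (Fpast X Z t) _ _ (@MeasurableSet.const _ (Fpast X Z t) _) ?_
  by_cases hq : q ≤ 1
  · have hq' : (q : ℝ≥0) ≤ 1 := by exact_mod_cast hq
    have h1 : s + δ * (q : ℝ≥0) ≤ t := by
      refine le_trans ?_ hs
      gcongr
      exact mul_le_of_le_one_right zero_le hq'
    have h2 : s ≤ t := le_self_add.trans hs
    have e2 : {ω | q ≤ 1 ∧ ‖incr Z s i (δ * (q : ℝ≥0)) ω + ((q : ℝ≥0) : ℝ) • v‖ ≤ η} =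
        {ω | ‖incr Z s i (δ * (q : ℝ≥0)) ω + ((q : ℝ≥0) : ℝ) • v‖ ≤ η} := by
      ext ω; simp [hq]
    rw [e2]
    have h3 : Measurable[Fpast X Z t] (incr Z s i (δ * (q : ℝ≥0))) := by
      show Measurable[Fpast X Z t] (Z i (s + δ * (q : ℝ≥0)) - Z i s)
      exact @Measurable.sub _ _ _ _ (Fpast X Z t) _ _ _ (measurable_Z h1 i) (measurable_Z h2 i)
    have h4 : Measurable (fun x : E d => ‖x + ((q : ℝ≥0) : ℝ) • v‖) :=
      (measurable_id.add_const _).norm
    exact (@Measurable.comp _ _ _ (Fpast X Z t) _ _ _ _ h4 h3) measurableSet_Iic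
  · have e2 : {ω | q ≤ 1 ∧ ‖incr Z s i (δ * (q : ℝ≥0)) ω + ((q : ℝ≥0) : ℝ) • v‖ ≤ η} = ∅ := by
      ext ω; simp [hq]
    rw [e2]
    exact @MeasurableSet.empty _ (Fpast X Z t)

end

end Pool.Agent.Helper712_LP
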