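import Pool.Agent.Helper712_LP.Meas
import Pool.Agent.Helper712_LP.Geom

/-!
# One step of the iteration
-/

set_option autoImplicit false
set_option linter.unusedSectionVars false

namespace Pool.Agent.Helper712_LP

open MeasureTheory ProbabilityTheory Set Filter Topology
open scoped ENNReal NNReal

variable {d : ℕ}

/-- `i` is the least index of a node in the cell `z`. -/
def isFirst (ε : ℝ) (y : ℕ → E d) (z : Fin d → ℤ) (i : ℕ) : Prop :=
  cell ε (y i) = z ∧ ∀ k < i, cell ε (y k) ≠ z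

theorem exists_isFirst {ε : ℝ} {y : ℕ → E d} {z : Fin d → ℤ} (h : z ∈ occ ε y) :
    ∃ i, isFirst ε y z i := by
  classical
  have h' : ∃ i, cell ε (y i) = z := h
  exact ⟨Nat.find h', Nat.find_spec h', fun k hk => Nat.find_min h' hk⟩

theorem measurableSet_isFirst (ε : ℝ) (z : Fin d → ℤ) (i : ℕ) :
    MeasurableSet {y : ℕ → E d | isFirst ε y z i} := by
  have : {y : ℕ → E d | isFirst ε y z i} = {y | cell ε (y i) = z} ∩
      ⋂ k ∈ Finset.range i, {y | cell ε (y k) = z}ᶜ := by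
    ext y
    simp [isFirst]
  rw [this]
  have h : ∀ k : ℕ, MeasurableSet {y : ℕ → E d | cell ε (y k) = z} := fun k =>
    (measurableSet_cell ε z).preimage (measurable_pi_apply (X := fun _ : ℕ => E d) k)
  exact (h i).inter (Finset.measurableSet_biInter _ fun k _ => (h k).compl)

/-- The contraction event around the cell `z0`, for the positions `q.1` and the increments
`q.2`. -/
def CH (ε η : ℝ) (δ : ℝ≥0) (n : ℤ) (z0 : Fin d → ℤ) :
    Set ((ℕ → E d) × (ℕ → ℝ≥0 → E d)) :=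
  {q | ∀ z ∈ boxS z0 n, ∀ i, isFirst ε q.1 z i →
    Tube η δ (corner ε z - corner ε z0) (q.2 i)}

theorem measurableSet_CH (ε η : ℝ) (δ : ℝ≥0) (n : ℤ) (z0 : Fin d → ℤ) :
    MeasurableSet (CH ε η δ n z0) := by
  have : CH ε η δ n z0 = ⋂ z : Fin d → ℤ, ⋂ i : ℕ, ({_q | z ∉ boxS z0 n} ∪
      ({q | isFirst ε q.1 z i}ᶜ ∪ {q | Tube η δ (corner ε z - corner ε z0) (q.2 i)})) := by
    ext q
    simp only [CH, mem_ofPred_eq, mem_iInter, mem_union, mem_compl_iff]
    refine forall_congr' fun z => ?_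
    constructor
    · intro h i
      by_cases hz : z ∈ boxS z0 n
      · by_cases hi : isFirst ε q.1 z i
        · exact Or.inr (Or.inr (h hz i hi))
        · exact Or.inr (Or.inl hi)
      · exact Or.inl hz
    · intro h hz i hi
      rcases h i with h | h | h
      · exact absurd hz h
      · exact absurd hi h
      · exact h
  rw [this]
  refine MeasurableSet.iInter fun z => MeasurableSet.iInter fun i =>
    MeasurableSet.union (MeasurableSet.const _) (MeasurableSet.union ?_ ?_)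
  · exact ((measurableSet_isFirst ε z i).preimage measurable_fst).compl
  · exact (measurableSet_tube η δ _).preimage
      ((measurable_pi_apply (X := fun _ : ℕ => (ℝ≥0 → E d)) i).comp measurable_snd)

section

variable {Ω : Type} [mΩ : MeasurableSpace Ω] {P : Measure Ω} [IsProbabilityMeasure P]
  {lam : ℝ≥0} {X : ℕ → Ω → E d} {Z : ℕ → ℝ≥0 → Ω → E d}

theorem measure_partition {ι : Type} [Countable ι] [MeasurableSpace ι]
    [MeasurableSingletonClass ι] {f : Ω → ι}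
    (hf : Measurable f) {A : Set Ω} (hA : MeasurableSet A) :
    P A = ∑' z, P (A ∩ {ω | f ω = z}) := by
  have h1 : A = ⋃ z, A ∩ {ω | f ω = z} := by
    ext ω; simp
  conv_lhs => rw [h1]
  refine measure_iUnion ?_ fun z => hA.inter (hf (measurableSet_singleton z))
  intro z z' hzz
  rw [Function.onFun, Set.disjoint_left]
  rintro ω ⟨_, h⟩ ⟨_, h'⟩
  exact hzz (h.symm.trans h')

theorem nodes_add (X : ℕ → Ω → E d) (Z : ℕ → ℝ≥0 → Ω → E d) (s Δ : ℝ≥0) (ω : Ω) :
    nodes X Z (s + Δ) ω = fun i => nodes X Z s ω i + incr Z s i Δ ω := by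
  funext i
  simp only [nodes, incr]
  abel

/-- The number of sites in a box. -/
theorem ncard_box (z : Fin d → ℤ) (n : ℕ) :
    ∃ S : Finset (Fin d → ℤ), S.card = (2 * n + 1) ^ d ∧ ∀ u, u ∈ S ↔ u ∈ boxS z n := by
  refine ⟨Fintype.piFinset fun j => Finset.Icc (z j - n) (z j + n), ?_, fun u => ?_⟩
  · rw [Fintype.card_piFinset]
    have : ∀ j : Fin d, (Finset.Icc (z j - (n : ℤ)) (z j + n)).card = 2 * n + 1 := by
      intro j
      rw [Int.card_Icc]
      omega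
    simp [this]
  · rw [Fintype.mem_piFinset]
    simp only [Finset.mem_Icc, boxS, mem_ofPred_eq]
    refine forall_congr' fun j => ?_
    rw [abs_le]
    constructor <;> rintro ⟨h1, h2⟩ <;> constructor <;> omega

/-- The bad event of one step. -/
def stepBad (K : Finset (Fin d → ℤ)) (ε η : ℝ) (δ : ℝ≥0) (X : ℕ → Ω → E d)
    (Z : ℕ → ℝ≥0 → Ω → E d) (s Δ : ℝ≥0) (D n Bz Rm Bw : ℕ) (L N0 : ℝ)
    (f0 f1 : Ω → (Fin d → ℤ)) : Set Ω :=
  {ω | (∀ w ∈ boxS (0 : Fin d → ℤ) Bw, ManyIn L (nodes X Z s ω) w N0) ∧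
    f0 ω ∈ boxS 0 Bz ∧ f1 ω ∈ boxS (f0 ω) Rm ∧
    ¬ (¬ Conn (vac K (occ ε (nodes X Z (s + Δ) ω))) (f1 ω) D ∧
      (nodes X Z (s + Δ) ω, fun i u => incr Z (s + Δ) i u ω) ∈ CH ε η δ n (f1 ω))}

theorem one_step (hN : MobileNodes P lam X Z) (hmc : S_measConn) (hmk : S_markov)
    {K : Finset (Fin d → ℤ)} {ε η : ℝ} {δ s Δ : ℝ≥0} {D n Bz Rm Bw : ℕ} {L N0 : ℝ}
    {f0 f1 : Ω → (Fin d → ℤ)} (hf0 : Measurable[Fpast X Z s] f0)
    (hf1 : Measurable[Fpast X Z (s + Δ)] f1) {b φ : ℝ≥0∞}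
    (hdec : ∀ (y : ℕ → E d) (z1 : Fin d → ℤ), (∀ w ∈ boxS (0 : Fin d → ℤ) Bw, ManyIn L y w N0) →
      z1 ∈ boxS 0 (Bz + Rm : ℕ) →
      P {ω | Conn (vac K (occ ε (fun i => y i + incr Z s i Δ ω))) z1 D} ≤ b)
    (hb : ((2 * Rm + 1) ^ d : ℕ) * b ≤ 1 / 2)
    (hφ1 : φ ≤ 1)
    (hcon : ∀ (y : ℕ → E d) (z0 : Fin d → ℤ),
      φ ≤ P {ω | (y, fun i u => incr Z (s + Δ) i u ω) ∈ CH ε η δ n z0})
    {G : Set Ω} (hG : MeasurableSet[Fpast X Z s] G) :
    P.real (G ∩ stepBad K ε η δ X Z s Δ D n Bz Rm Bw L N0 f0 f1) ≤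
      (1 - φ.toReal / 2) * P.real G := by
  have hle := Fpast_le hN s
  have hle' := Fpast_le hN (s + Δ)
  have hmono : Fpast X Z s ≤ Fpast X Z (s + Δ) := Fpast_mono le_self_add
  have hnodes := measurable_nodes (X := X) (Z := Z) (le_refl s)
  have hnodes' := measurable_nodes (X := X) (Z := Z) (le_refl (s + Δ))
  -- the dense part
  set G1 : Set Ω := G ∩ ({ω | ∀ w ∈ boxS (0 : Fin d → ℤ) Bw, ManyIn L (nodes X Z s ω) w N0} ∩
    {ω | f0 ω ∈ boxS 0 Bz}) with hG1def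
  have hG1 : MeasurableSet[Fpast X Z s] G1 := by
    refine @MeasurableSet.inter _ (Fpast X Z s) _ _ hG (@MeasurableSet.inter _ (Fpast X Z s) _ _ ?_ ?_)
    · have e : {ω | ∀ w ∈ boxS (0 : Fin d → ℤ) Bw, ManyIn L (nodes X Z s ω) w N0} =
          (fun ω => nodes X Z s ω) ⁻¹' (⋂ w : Fin d → ℤ, ({_y | w ∉ boxS (0 : Fin d → ℤ) Bw} ∪
            {y | ManyIn L y w N0})) := by
        ext ω
        simp only [mem_ofPred_eq, mem_preimage, mem_iInter, mem_union]
        refine forall_congr' fun w => ?_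
        tauto
      rw [e]
      exact hnodes (MeasurableSet.iInter fun w => MeasurableSet.union (MeasurableSet.const _)
        (measurableSet_manyIn L w N0))
    · exact hf0 (Set.to_countable _).measurableSet
  -- the connection event
  set Bad : Set Ω := {ω | ∃ z1 ∈ boxS (f0 ω) Rm,
    Conn (vac K (occ ε (nodes X Z (s + Δ) ω))) z1 D} with hBad
  have hf0' : Measurable[Fpast X Z (s + Δ)] f0 := hf0.mono hmono le_rfl
  have hConnM : ∀ z1, MeasurableSet[Fpast X Z (s + Δ)]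
      {ω | Conn (vac K (occ ε (nodes X Z (s + Δ) ω))) z1 D} := fun z1 =>
    hnodes' (measurableSet_conn hmc K ε z1 D)
  have hBadM : MeasurableSet[Fpast X Z (s + Δ)] Bad := by
    have e : Bad = ⋃ z0 : Fin d → ℤ, ({ω | f0 ω = z0} ∩ ⋃ z1 : Fin d → ℤ,
        ({_ω | z1 ∈ boxS z0 Rm} ∩ {ω | Conn (vac K (occ ε (nodes X Z (s + Δ) ω))) z1 D})) := by
      ext ω
      simp only [hBad, mem_ofPred_eq, mem_iUnion, mem_inter_iff]
      constructor
      · rintro ⟨z1, h1, h2⟩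
        exact ⟨f0 ω, rfl, z1, h1, h2⟩
      · rintro ⟨z0, h0, z1, h1, h2⟩
        subst h0
        exact ⟨z1, h1, h2⟩
    rw [e]
    refine @MeasurableSet.iUnion _ _ (Fpast X Z (s + Δ)) _ _ fun z0 =>
      @MeasurableSet.inter _ (Fpast X Z (s + Δ)) _ _ (hf0' (measurableSet_singleton z0)) ?_
    refine @MeasurableSet.iUnion _ _ (Fpast X Z (s + Δ)) _ _ fun z1 =>
      @MeasurableSet.inter _ (Fpast X Z (s + Δ)) _ _
        (@MeasurableSet.const _ (Fpast X Z (s + Δ)) _) (hConnM z1)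
  -- step a
  have hWm := measurable_incr hN s
  have hWm' := measurable_incr hN (s + Δ)
  have hA : ∀ z0 : Fin d → ℤ, P ((G1 ∩ Bad) ∩ {ω | f0 ω = z0}) ≤
      1 / 2 * P (G1 ∩ {ω | f0 ω = z0}) := by
    intro z0
    have hGz : MeasurableSet[Fpast X Z s] (G1 ∩ {ω | f0 ω = z0}) :=
      @MeasurableSet.inter _ (Fpast X Z s) _ _ hG1 (hf0 (measurableSet_singleton z0))
    obtain ⟨S, hScard, hS⟩ := ncard_box z0 Rm
    have hz1 : ∀ z1 ∈ S, P ((G1 ∩ {ω | f0 ω = z0}) ∩
        {ω | Conn (vac K (occ ε (nodes X Z (s + Δ) ω))) z1 D}) ≤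
        b * P (G1 ∩ {ω | f0 ω = z0}) := by
      intro z1 hz1
      set H : Set ((ℕ → E d) × (ℕ → ℝ≥0 → E d)) :=
        {q | Conn (vac K (occ ε (fun i => q.1 i + q.2 i Δ))) z1 D} with hH
      have hHm : MeasurableSet H := by
        have hmap : Measurable (fun q : (ℕ → E d) × (ℕ → ℝ≥0 → E d) =>
            (fun i => q.1 i + q.2 i Δ)) := by
          refine measurable_pi_iff.mpr fun i => ?_
          refine Measurable.add ?_ ?_
          · exact (measurable_pi_apply (X := fun _ : ℕ => E d) i).comp measurable_fst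
          · exact (measurable_pi_apply (X := fun _ : ℝ≥0 => E d) Δ).comp
              ((measurable_pi_apply (X := fun _ : ℕ => (ℝ≥0 → E d)) i).comp measurable_snd)
        exact (measurableSet_conn hmc K ε z1 D).preimage hmap
      have h1 := freeze_le (P := P) (m1 := Fpast X Z s) (Y := fun ω => nodes X Z s ω)
        (W := fun ω i u => incr Z s i u ω) hle hnodes hWm (hmk d Ω P lam X Z hN s) hHm hGz
        (ψ := b) (by
          rintro ω ⟨⟨_, hdense, hf0b⟩, hf0z⟩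
          refine hdec _ _ hdense ?_
          intro j
          have e0 : f0 ω = z0 := hf0z
          have a1 := (hS z1).mp hz1 j
          have a2 := hf0b j
          rw [e0] at a2
          simp only [Pi.zero_apply, sub_zero] at a2 ⊢
          have a3 : z1 j = (z1 j - z0 j) + z0 j := by ring
          rw [a3]
          have := abs_add_le (z1 j - z0 j) (z0 j)
          push_cast
          omega)
      refine le_trans (measure_mono ?_) h1
      rintro ω ⟨hω, hc⟩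
      refine ⟨hω, ?_⟩
      simp only [mem_ofPred_eq] at hc ⊢
      rw [nodes_add] at hc
      exact hc
    have hsub : (G1 ∩ Bad) ∩ {ω | f0 ω = z0} ⊆ ⋃ z1 ∈ S, ((G1 ∩ {ω | f0 ω = z0}) ∩
        {ω | Conn (vac K (occ ε (nodes X Z (s + Δ) ω))) z1 D}) := by
      rintro ω ⟨⟨hω, z1, hz1, hc⟩, h0⟩
      have e0 : f0 ω = z0 := h0
      rw [e0] at hz1
      simp only [mem_iUnion]
      exact ⟨z1, (hS z1).mpr hz1, ⟨hω, h0⟩, hc⟩
    calc P ((G1 ∩ Bad) ∩ {ω | f0 ω = z0}) ≤ _ := measure_mono hsub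
      _ ≤ ∑ z1 ∈ S, P ((G1 ∩ {ω | f0 ω = z0}) ∩
        {ω | Conn (vac K (occ ε (nodes X Z (s + Δ) ω))) z1 D}) := measure_biUnion_finset_le _ _
      _ ≤ ∑ _z1 ∈ S, b * P (G1 ∩ {ω | f0 ω = z0}) := Finset.sum_le_sum hz1
      _ = ((2 * Rm + 1) ^ d : ℕ) * b * P (G1 ∩ {ω | f0 ω = z0}) := by
          rw [Finset.sum_const, hScard, nsmul_eq_mul, mul_assoc]
      _ ≤ 1 / 2 * P (G1 ∩ {ω | f0 ω = z0}) := by gcongr
  have hG1' : MeasurableSet G1 := hle _ hG1
  have hBad' : MeasurableSet Bad := hle' _ hBadM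
  have hf0m : Measurable f0 := hf0.mono hle le_rfl
  have hf1m : Measurable f1 := hf1.mono hle' le_rfl
  have hStepA : P (G1 ∩ Bad) ≤ 1 / 2 * P G1 := by
    rw [measure_partition hf0m (hG1'.inter hBad'), measure_partition hf0m hG1',
      ← ENNReal.tsum_mul_left]
    exact ENNReal.tsum_le_tsum hA
  -- step b
  set G2 : Set Ω := (G1 ∩ Badᶜ) ∩ {ω | f1 ω ∈ boxS (f0 ω) Rm} with hG2def
  have hG2 : MeasurableSet[Fpast X Z (s + Δ)] G2 := by
    refine @MeasurableSet.inter _ (Fpast X Z (s + Δ)) _ _ (@MeasurableSet.inter _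
      (Fpast X Z (s + Δ)) _ _ (hmono _ hG1) (@MeasurableSet.compl _ _ (Fpast X Z (s + Δ)) hBadM)) ?_
    have hpair : Measurable[Fpast X Z (s + Δ)] (fun ω => (f0 ω, f1 ω)) :=
      Measurable.prodMk hf0' hf1
    exact hpair (Set.to_countable {q : (Fin d → ℤ) × (Fin d → ℤ) | q.2 ∈ boxS q.1 Rm}).measurableSet
  have hB : ∀ z0 : Fin d → ℤ, φ * P (G2 ∩ {ω | f1 ω = z0}) ≤
      P ((G2 ∩ {ω | (nodes X Z (s + Δ) ω, fun i u => incr Z (s + Δ) i u ω) ∈
        CH ε η δ n (f1 ω)}) ∩ {ω | f1 ω = z0}) := by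
    intro z0
    have hGz : MeasurableSet[Fpast X Z (s + Δ)] (G2 ∩ {ω | f1 ω = z0}) :=
      @MeasurableSet.inter _ (Fpast X Z (s + Δ)) _ _ hG2 (hf1 (measurableSet_singleton z0))
    have h1 := freeze_ge (P := P) (m1 := Fpast X Z (s + Δ)) (Y := fun ω => nodes X Z (s + Δ) ω)
        (W := fun ω i u => incr Z (s + Δ) i u ω) hle' hnodes' hWm'
        (hmk d Ω P lam X Z hN (s + Δ)) (measurableSet_CH ε η δ n z0) hGz
        (ψ := φ) (fun ω _ => hcon _ _)
    refine h1.trans (measure_mono ?_)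
    rintro ω ⟨⟨h2, h3⟩, h4⟩
    have e0 : f1 ω = z0 := h3
    refine ⟨⟨h2, ?_⟩, h3⟩
    simp only [mem_ofPred_eq] at h4 ⊢
    rw [e0]
    exact h4
  set C : Set Ω := {ω | (nodes X Z (s + Δ) ω, fun i u => incr Z (s + Δ) i u ω) ∈
        CH ε η δ n (f1 ω)} with hC
  have hCm : MeasurableSet C := by
    have e : C = ⋃ z0 : Fin d → ℤ, ({ω | f1 ω = z0} ∩
        {ω | (nodes X Z (s + Δ) ω, fun i u => incr Z (s + Δ) i u ω) ∈ CH ε η δ n z0}) := by
      ext ω
      simp only [hC, mem_ofPred_eq, mem_iUnion, mem_inter_iff]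
      constructor
      · intro h; exact ⟨_, rfl, h⟩
      · rintro ⟨z0, h0, h⟩
        subst h0
        exact h
    rw [e]
    refine MeasurableSet.iUnion fun z0 => (hf1m (measurableSet_singleton z0)).inter ?_
    exact (measurableSet_CH ε η δ n z0).preimage ((hnodes'.mono hle' le_rfl).prodMk hWm')
  have hG2' : MeasurableSet G2 := hle' _ hG2
  have hStepB : φ * P G2 ≤ P (G2 ∩ C) := by
    rw [measure_partition hf1m hG2', measure_partition hf1m (hG2'.inter hCm),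
      ← ENNReal.tsum_mul_left]
    exact ENNReal.tsum_le_tsum hB
  -- conclusion
  have hsub : G ∩ stepBad K ε η δ X Z s Δ D n Bz Rm Bw L N0 f0 f1 ⊆
      (G1 ∩ Bad) ∪ (G2 \ C) := by
    rintro ω ⟨hg, hdense, hb0, hb1, hnot⟩
    by_cases hbad : ω ∈ Bad
    · exact Or.inl ⟨⟨hg, hdense, hb0⟩, hbad⟩
    · right
      refine ⟨⟨⟨⟨hg, hdense, hb0⟩, hbad⟩, hb1⟩, fun hc => hnot ⟨fun hconn => ?_, hc⟩⟩
      exact hbad ⟨f1 ω, hb1, hconn⟩
  have r1 : P.real (G ∩ stepBad K ε η δ X Z s Δ D n Bz Rm Bw L N0 f0 f1) ≤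
      P.real (G1 ∩ Bad) + P.real (G2 \ C) :=
    (measureReal_mono hsub).trans (measureReal_union_le _ _)
  have r2 : P.real (G1 ∩ Bad) ≤ 1 / 2 * P.real G1 := by
    have := ENNReal.toReal_mono (ENNReal.mul_ne_top (by norm_num) (measure_ne_top P G1)) hStepA
    rw [ENNReal.toReal_mul] at this
    simpa [Measure.real] using this
  have hφt : φ ≠ ∞ := ne_top_of_le_ne_top ENNReal.one_ne_top hφ1
  have r3 : φ.toReal * P.real G2 ≤ P.real (G2 ∩ C) := by
    have := ENNReal.toReal_mono (measure_ne_top P _) hStepB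
    rwa [ENNReal.toReal_mul] at this
  have r4 : P.real (G2 ∩ C) + P.real (G2 \ C) = P.real G2 := measureReal_inter_add_sdiff hCm
  have r5 : P.real G2 ≤ P.real (G1 ∩ Badᶜ) := measureReal_mono inter_subset_left
  have r6 : P.real (G1 ∩ Bad) + P.real (G1 ∩ Badᶜ) = P.real G1 := by
    have := measureReal_inter_add_sdiff (μ := P) (s := G1) hBad'
    rwa [Set.sdiff_eq] at this
  have r7 : P.real G1 ≤ P.real G := measureReal_mono inter_subset_left
  have hφ0 : 0 ≤ φ.toReal := ENNReal.toReal_nonneg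
  have hφ1' : φ.toReal ≤ 1 := by
    have := ENNReal.toReal_mono ENNReal.one_ne_top hφ1
    simpa using this
  have hG2n : 0 ≤ P.real G2 := measureReal_nonneg
  nlinarith [mul_nonneg hφ0 (sub_nonneg.mpr r2), mul_nonneg (sub_nonneg.mpr hφ1') (sub_nonneg.mpr r5)]

end

end Pool.Agent.Helper712_LP
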