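import Pool.Agent.Helper712_LP.Defs

/-!
# MP_f368f5_pr: statements of the independent parts

Every `S_xxx` below is a statement to be proved as `theorem Pool.Agent.HelperNNN_LP.xxx : S_xxx`
in a file of its own which imports this file.
-/

set_option autoImplicit false

namespace Pool.Agent.Helper712_LP

open MeasureTheory ProbabilityTheory Set Filter Topology
open scoped ENNReal NNReal

/-! ## Auxiliary notions used in the statements -/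

/-- Independent `d`-dimensional standard Brownian motions `Z 0, Z 1, …`. -/
structure Motions {d : ℕ} {Ω : Type} [MeasurableSpace Ω] (P : Measure Ω)
    (Z : ℕ → ℝ≥0 → Ω → E d) : Prop where
  measurable : ∀ i t, Measurable (Z i t)
  brownian : ∀ (i : ℕ) (j : Fin d), IsBrownianReal (fun t ω => Z i t ω j) P
  indep : iIndepFun (fun (p : ℕ × Fin d) ω (t : ℝ≥0) => Z p.1 t ω p.2) P

/-- The increments after time `s`. -/
def incr {d : ℕ} {Ω : Type} (Z : ℕ → ℝ≥0 → Ω → E d) (s : ℝ≥0) : ℕ → ℝ≥0 → Ω → E d :=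
  fun i u ω => Z i (s + u) ω - Z i s ω

/-- The path `w` stays in the closed ball of radius `η` around the moving point `-(t/δ) v`, at the
times `t = δ q`, `q` rational in `[0,1]`. For `v = 0` the path stays near the origin. -/
def Tube {d : ℕ} (η : ℝ) (δ : ℝ≥0) (v : E d) (w : ℝ≥0 → E d) : Prop :=
  ∀ q : ℚ≥0, q ≤ 1 → ‖w (δ * (q : ℝ≥0)) + ((q : ℝ≥0) : ℝ) • v‖ ≤ η

/-- There are at least `N` indices `i` with `y i` in the cell `w` of side `L`. -/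
def ManyIn {d : ℕ} (L : ℝ) (y : ℕ → E d) (w : Fin d → ℤ) (N : ℝ) : Prop :=
  ∃ I : Finset ℕ, (∀ i ∈ I, cell L (y i) = w) ∧ N ≤ (I.card : ℝ)

/-- The occupied cells. -/
def occ {d : ℕ} (ε : ℝ) (y : ℕ → E d) : Set (Fin d → ℤ) := {z | ∃ i, cell ε (y i) = z}

/-- The cells occupied at time `s` by a node which then stays within distance `η` for the time
`δ`. -/
def occStay {d : ℕ} {Ω : Type} (ε η : ℝ) (δ : ℝ≥0) (X : ℕ → Ω → E d) (Z : ℕ → ℝ≥0 → Ω → E d)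
    (s : ℝ≥0) (ω : Ω) : Set (Fin d → ℤ) :=
  {z | ∃ i, cell ε (nodes X Z s ω i) = z ∧ Tube η δ 0 (fun u => incr Z s i u ω)}

/-- Everything up to time `s`. -/
@[reducible] def Fpast {d : ℕ} {Ω : Type} (X : ℕ → Ω → E d) (Z : ℕ → ℝ≥0 → Ω → E d)
    (s : ℝ≥0) : MeasurableSpace Ω :=
  (⨆ i : ℕ, MeasurableSpace.comap (X i) inferInstance) ⊔
    ⨆ (i : ℕ) (u : ℝ≥0) (_ : u ≤ s), MeasurableSpace.comap (Z i u) inferInstance

/-- Everything about the motions after time `s`. -/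
@[reducible] def Ffut {d : ℕ} {Ω : Type} (Z : ℕ → ℝ≥0 → Ω → E d) (s : ℝ≥0) :
    MeasurableSpace Ω :=
  MeasurableSpace.comap (fun ω (i : ℕ) (u : ℝ≥0) => incr Z s i u ω) inferInstance

/-! ## Module 1: calculus -/

/-- Calculus lemma behind sharpness (Duminil-Copin, Raoufi, Tassion). -/
def S_ode : Prop := ∀ (a b c : ℝ), a < b → 0 < c → ∀ (θ θ' : ℕ → ℝ → ℝ),
  (∀ n, ∀ x ∈ Icc a b, HasDerivAt (θ n) (θ' n x) x) →
  (∀ x ∈ Icc a b, 0 < θ 0 x) → (∀ n, ∀ x ∈ Icc a b, 0 ≤ θ n x) →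
  (∀ n, ∀ x ∈ Icc a b, θ n x ≤ 1) →
  (∀ n, ∀ x ∈ Icc a b, θ (n + 1) x ≤ θ n x) →
  (∀ n, MonotoneOn (θ n) (Icc a b)) →
  (∀ n : ℕ, 1 ≤ n → ∀ x ∈ Icc a b,
    c * n / (∑ m ∈ Finset.range n, θ m x) * θ n x ≤ θ' n x) →
  Tendsto (fun n => θ n b) atTop (𝓝 0) →
  ∀ x ∈ Ico a b, ∃ C k : ℝ, 0 < k ∧ ∀ n : ℕ, θ n x ≤ C * Real.exp (-k * n)

/-! ## Module 2: the differential inequality -/

/-- Elementary properties of `theta`. -/
def S_basic : Prop := ∀ (d : ℕ), 1 ≤ d → ∀ K : Finset (Fin d → ℤ),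
  (∀ n p, 0 ≤ theta d K n p ∧ theta d K n p ≤ 1) ∧
  (∀ n p, theta d K (n + 1) p ≤ theta d K n p) ∧
  (∀ p, 0 < p → p ≤ 1 → 0 < theta d K 0 p) ∧
  (∀ n, MonotoneOn (theta d K n) (Icc 0 1))

/-- The differential inequality for `theta` from the OSSS inequality and Russo's formula. -/
def S_diff : Prop := ∀ (d : ℕ), 1 ≤ d → ∀ K : Finset (Fin d → ℤ), K.Nonempty →
  ∀ a b : ℝ, 0 < a → a < b → b < 1 → ∃ c : ℝ, 0 < c ∧ ∃ θ' : ℕ → ℝ → ℝ,
    (∀ n, ∀ x ∈ Icc a b, HasDerivAt (theta d K n) (θ' n x) x) ∧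
    (∀ n : ℕ, 1 ≤ n → ∀ x ∈ Icc a b,
      c * n / (∑ m ∈ Finset.range n, theta d K m x) * theta d K n x ≤ θ' n x)

/-- Sharpness of the phase transition of the vacant cells. -/
def S_sharp : Prop := ∀ (d : ℕ), 1 ≤ d → ∀ K : Finset (Fin d → ℤ), K.Nonempty →
  ∀ p p' : ℝ, 0 < p → p < p' → p' < 1 →
  Tendsto (fun n => theta d K n p') atTop (𝓝 0) →
  ∃ C k : ℝ, 0 < k ∧ ∀ n : ℕ, theta d K n p ≤ C * Real.exp (-k * n)

/-! ## Module 3: random sets of cells -/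

/-- Connection events are measurable. -/
def S_measConn : Prop := ∀ (d : ℕ) (Ω : Type) (m : MeasurableSpace Ω)
  (O : Ω → Set (Fin d → ℤ)), (∀ z, MeasurableSet[m] {ω | z ∈ O ω}) →
  ∀ (K : Finset (Fin d → ℤ)) (z : Fin d → ℤ) (n : ℕ),
    MeasurableSet[m] {ω | Conn (vac K (O ω)) z n}

/-- The void probabilities determine the connection probabilities, which are translation
invariant. -/
def S_law : Prop := ∀ (d : ℕ) (Ω : Type) [MeasurableSpace Ω] (P : Measure Ω)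
  [IsProbabilityMeasure P] (O : Ω → Set (Fin d → ℤ)) (p : ℝ), 0 ≤ p → p ≤ 1 →
  (∀ z, MeasurableSet {ω | z ∈ O ω}) →
  (∀ F : Finset (Fin d → ℤ), P {ω | ∀ z ∈ F, z ∉ O ω} = ENNReal.ofReal (p ^ F.card)) →
  ∀ (K : Finset (Fin d → ℤ)) (z : Fin d → ℤ) (n : ℕ),
    P {ω | Conn (vac K (O ω)) z n} = ENNReal.ofReal (theta d K n p)

/-! ## Module 4: Poisson processes -/

/-- The generating functional of a Poisson process. -/
def S_ppp : Prop := ∀ (d : ℕ) (Ω : Type) [MeasurableSpace Ω] (P : Measure Ω)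
  [IsProbabilityMeasure P] (lam : ℝ≥0) (x : ℕ → Ω → E d), IsPoissonProcess P lam x →
  ∀ φ : E d → ℝ≥0∞, Measurable φ → (∀ z, φ z ≤ 1) → ∫⁻ z, φ z ≠ ∞ →
  ∫⁻ ω, ⨅ m : ℕ, ∏ i ∈ Finset.range m, (1 - φ (x i ω)) ∂P =
    ENNReal.ofReal (Real.exp (-(lam * (∫⁻ z, φ z).toReal)))

/-- The generating functional of a marked Poisson process. -/
def S_marked : Prop := ∀ (d : ℕ) (Ω : Type) [MeasurableSpace Ω] (P : Measure Ω)
  [IsProbabilityMeasure P] (lam : ℝ≥0) (x : ℕ → Ω → E d), IsPoissonProcess P lam x →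
  ∀ (M : Type) [MeasurableSpace M] (Y : ℕ → Ω → M) (W : Measure M) [IsProbabilityMeasure W],
  (∀ i, Measurable (Y i)) → (∀ i, P.map (Y i) = W) → iIndepFun Y P →
  IndepFun (fun ω i => x i ω) (fun ω i => Y i ω) P →
  ∀ φ : E d × M → ℝ≥0∞, Measurable φ → (∀ q, φ q ≤ 1) →
  ∫⁻ z, ∫⁻ m, φ (z, m) ∂W ≠ ∞ →
  ∫⁻ ω, ⨅ m : ℕ, ∏ i ∈ Finset.range m, (1 - φ (x i ω, Y i ω)) ∂P =
    ENNReal.ofReal (Real.exp (-(lam * (∫⁻ z, ∫⁻ m, φ (z, m) ∂W).toReal)))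

/-- Void probabilities of the cells for a Poisson process. -/
def S_void : Prop := ∀ (d : ℕ) (Ω : Type) [MeasurableSpace Ω] (P : Measure Ω)
  [IsProbabilityMeasure P] (lam : ℝ≥0) (x : ℕ → Ω → E d), IsPoissonProcess P lam x →
  ∀ ε : ℝ, 0 < ε → ∀ F : Finset (Fin d → ℤ),
    P {ω | ∀ z ∈ F, z ∉ occ ε (fun i => x i ω)} =
      ENNReal.ofReal (Real.exp (-(lam * ε ^ d)) ^ F.card)

/-- Void probabilities of the cells occupied by the nodes which stay for the time `δ`. -/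
def S_stay : Prop := ∀ (d : ℕ) (Ω : Type) [MeasurableSpace Ω] (P : Measure Ω)
  [IsProbabilityMeasure P] (lam : ℝ≥0) (X : ℕ → Ω → E d) (Z : ℕ → ℝ≥0 → Ω → E d),
  MobileNodes P lam X Z → ∀ (ε η : ℝ) (δ s : ℝ≥0), 0 < ε → ∀ F : Finset (Fin d → ℤ),
    P {ω | ∀ z ∈ F, z ∉ occStay ε η δ X Z s ω} =
      ENNReal.ofReal (Real.exp (-(lam * (P {ω | Tube η δ 0 (fun u => Z 0 u ω)}).toReal * ε ^ d))
        ^ F.card)

/-- Lower tail for the number of nodes in a cell of side `L` at time `s`. -/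
def S_count : Prop := ∀ (d : ℕ) (Ω : Type) [MeasurableSpace Ω] (P : Measure Ω)
  [IsProbabilityMeasure P] (lam : ℝ≥0) (X : ℕ → Ω → E d) (Z : ℕ → ℝ≥0 → Ω → E d),
  MobileNodes P lam X Z → ∀ (L a N : ℝ) (s : ℝ≥0) (w : Fin d → ℤ), 0 < L → 0 ≤ a → 0 ≤ N →
    P {ω | ¬ ManyIn L (nodes X Z s ω) w N} ≤
      ENNReal.ofReal (Real.exp (a * N - lam * L ^ d * (1 - Real.exp (-a))))

/-! ## Module 5: existence and scaling -/

/-- Poisson processes exist. -/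
def S_exists : Prop := ∀ (d : ℕ), 1 ≤ d → ∀ lam : ℝ≥0, 0 < lam →
  ∃ (Ω : Type) (_ : MeasurableSpace Ω) (P : Measure Ω) (_ : IsProbabilityMeasure P)
    (x : ℕ → Ω → E d), IsPoissonProcess P lam x

/-- The mobile nodes exist. -/
def S_existsMobile : Prop := ∀ (d : ℕ), 1 ≤ d → ∀ lam : ℝ≥0, 0 < lam →
  ∃ (Ω : Type) (_ : MeasurableSpace Ω) (P : Measure Ω) (_ : IsProbabilityMeasure P)
    (X : ℕ → Ω → E d) (Z : ℕ → ℝ≥0 → Ω → E d), MobileNodes P lam X Z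

/-- Scaling of Poisson processes. -/
def S_scale : Prop := ∀ (d : ℕ) (Ω : Type) [MeasurableSpace Ω] (P : Measure Ω)
  (lam : ℝ≥0) (x : ℕ → Ω → E d), IsPoissonProcess P lam x →
  ∀ a : ℝ≥0, 0 < a → IsPoissonProcess P (lam / a ^ d) (fun i ω => (a : ℝ) • x i ω)

/-! ## Module 6: Brownian motions -/

/-- Restarting the Brownian motions. -/
def S_shift : Prop := ∀ (d : ℕ) (Ω : Type) [MeasurableSpace Ω] (P : Measure Ω)
  [IsProbabilityMeasure P] (Z : ℕ → ℝ≥0 → Ω → E d), Motions P Z →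
  ∀ s : ℝ≥0, Motions P (incr Z s)

/-- The law of the path of one motion does not depend on the choices. -/
def S_pathLaw : Prop := ∀ (d : ℕ) (Ω Ω' : Type) [MeasurableSpace Ω] [MeasurableSpace Ω']
  (P : Measure Ω) (P' : Measure Ω') [IsProbabilityMeasure P] [IsProbabilityMeasure P']
  (Z : ℕ → ℝ≥0 → Ω → E d) (Z' : ℕ → ℝ≥0 → Ω' → E d), Motions P Z → Motions P' Z' →
  ∀ i i' : ℕ, P.map (fun ω (t : ℝ≥0) => Z i t ω) = P'.map (fun ω (t : ℝ≥0) => Z' i' t ω)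

/-- The paths of the motions are independent. -/
def S_pathIndep : Prop := ∀ (d : ℕ) (Ω : Type) [MeasurableSpace Ω] (P : Measure Ω)
  [IsProbabilityMeasure P] (Z : ℕ → ℝ≥0 → Ω → E d), Motions P Z →
  iIndepFun (fun (i : ℕ) ω (t : ℝ≥0) => Z i t ω) P

/-- Past and future are independent. -/
def S_markov : Prop := ∀ (d : ℕ) (Ω : Type) [MeasurableSpace Ω] (P : Measure Ω)
  [IsProbabilityMeasure P] (lam : ℝ≥0) (X : ℕ → Ω → E d) (Z : ℕ → ℝ≥0 → Ω → E d),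
  MobileNodes P lam X Z → ∀ s : ℝ≥0, Indep (Fpast X Z s) (Ffut Z s) P

/-- Brownian motion stays near the origin for a short time. -/
def S_short : Prop := ∀ (d : ℕ) (Ω : Type) [MeasurableSpace Ω] (P : Measure Ω)
  [IsProbabilityMeasure P] (Z : ℕ → ℝ≥0 → Ω → E d), Motions P Z →
  ∀ η : ℝ, 0 < η → ∀ κ : ℝ, κ < 1 → ∃ δ : ℝ≥0, 0 < δ ∧
    κ ≤ (P {ω | Tube η δ 0 (fun u => Z 0 u ω)}).toReal

/-- Brownian motion follows a straight line with probability at least `c exp (-C |v|²)`. -/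
def S_tube : Prop := ∀ (d : ℕ) (Ω : Type) [MeasurableSpace Ω] (P : Measure Ω)
  [IsProbabilityMeasure P] (Z : ℕ → ℝ≥0 → Ω → E d), Motions P Z →
  ∀ (η : ℝ) (δ : ℝ≥0), 0 < η → 0 < δ →
  0 < P {ω | Tube (η / 4) δ 0 (fun u => Z 0 u ω)} →
  ∃ c C : ℝ, 0 < c ∧ 0 < C ∧ ∀ v : E d,
    ENNReal.ofReal (c * Real.exp (-C * ‖v‖ ^ 2)) ≤ P {ω | Tube η δ v (fun u => Z 0 u ω)}

/-! ## Module 7: decoupling -/

/-- The operator which adds a random point with (sub-probability) law `μ`. -/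
def addPt {Y : Type} [Fintype Y] [DecidableEq Y] (μ : Y → ℝ) (f : Finset Y → ℝ) :
    Finset Y → ℝ := fun O => f O + ∑ c, μ c * (f (insert c O) - f O)

/-- The operator which adds every point `c` independently, with probability `1 - exp (-t c)`,
applied to `f` and evaluated at the empty set. -/
noncomputable def poisEx {Y : Type} [Fintype Y] [DecidableEq Y] (t : Y → ℝ)
    (f : Finset Y → ℝ) : ℝ :=
  ∑ O : Finset Y, (∏ c ∈ O, (1 - Real.exp (-t c))) * (∏ c ∈ Oᶜ, Real.exp (-t c)) * f O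

/-- Comparison of independent points with a Poisson number of points, for decreasing functions.
`W` indexes the groups, the group `w` consists of the points `i : I w`, the point `i` has law
`μ w i`, and `ν w` is a common lower bound. -/
def S_compare : Prop := ∀ (Y : Type) [Fintype Y] [DecidableEq Y] (W : Type) [Fintype W]
  (l : List (W × (Y → ℝ))) (ν : W → Y → ℝ) (κ : ℝ) (N : ℕ) (ρ : ℝ), 0 ≤ κ → ρ < 1 → κ ≤ ρ * N →
  0 < N →
  (∀ q ∈ l, (∀ c, 0 ≤ q.2 c) ∧ ∑ c, q.2 c ≤ 1 ∧ ∀ c, ν q.1 c ≤ q.2 c) →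
  (∀ w c, 0 ≤ ν w c) → (∀ w, ∑ c, ν w c ≤ 1) →
  (∀ w, N ≤ (l.filter (fun q => by classical exact decide (q.1 = w))).length) →
  ∀ f : Finset Y → ℝ, (∀ O, 0 ≤ f O) → (∀ O O', O ⊆ O' → f O' ≤ f O) →
  (l.foldr (fun q g => addPt q.2 g) f) ∅ ≤
    ((1 - ρ)⁻¹) ^ (Fintype.card W) * poisEx (fun c => κ * ∑ w, ν w c) f

/-- Decoupling: after a time `Δ` of order `(ε ℓ)²` the nodes of a dense configuration `y` look at
least like a Poisson process of a slightly smaller intensity. -/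
def S_decouple : Prop := ∀ (d : ℕ), 1 ≤ d → ∀ (K : Finset (Fin d → ℤ)) (ε l2 l3 : ℝ), 0 < ε →
  0 < l2 → l2 < l3 → ∃ (A : ℕ) (c6 Cb : ℝ), 0 < c6 ∧ 0 < Cb ∧
  ∀ (Ω : Type) [MeasurableSpace Ω] (P : Measure Ω) [IsProbabilityMeasure P]
    (ξ : ℕ → Ω → E d) (Δ : ℝ≥0) (ℓ D : ℕ), (∀ i, Measurable (ξ i)) →
    (∀ i (j : Fin d), P.map (fun ω => ξ i ω j) = gaussianReal 0 Δ) →
    iIndepFun (fun (q : ℕ × Fin d) ω => ξ q.1 ω q.2) P →
    1 ≤ ℓ → c6 * (ε * ℓ) ^ 2 ≤ Δ → (Δ : ℝ) ≤ 2 * c6 * (ε * ℓ) ^ 2 →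
    (∀ k ∈ K, ∀ j, |k j| + (D : ℤ) ≤ (ℓ : ℤ)) →
    ∀ (y : ℕ → E d) (z : Fin d → ℤ),
      (∀ w : Fin d → ℤ, (∀ j, |(ℓ : ℤ) * w j - z j| ≤ A * ℓ) →
        ManyIn (ε * ℓ) y w (l3 * (ε * ℓ) ^ d)) →
      P {ω | Conn (vac K (occ ε (fun i => y i + ξ i ω))) z D} ≤
        ENNReal.ofReal (Cb * theta d K D (Real.exp (-(l2 * ε ^ d))))

end Pool.Agent.Helper712_LP
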